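import Pool.Agent.K9h62.St.Local

/-!
# Locally affine functions are affine
-/

namespace Pool.Agent.K9h62.St

open MvPolynomial Finset
open Pool.Agent.TH47.Lev (L dl L_dl)

variable {V : Type} [Fintype V] [DecidableEq V] {d : ℕ}

/-- a face avoiding `v` extends to a facet avoiding `v` -/
theorem extend_face_at (hd : 1 ≤ d) {p : V → E d} (hP : IsSimplicialPolytope p) (v : V)
    {σ : Finset V} (h : IsFace p σ) (hvσ : v ∉ σ) :
    ∃ F : Finset V, IsFace p F ∧ v ∉ F ∧ σ ⊆ F ∧ F.card = d := by
  have h0 : (fun a => p a - p v) v = 0 := sub_self _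
  obtain ⟨F, hF, h1, h2, h3⟩ := ext_face d hd V (fun a => p a - p v)
    (isSimplicialPolytope_translate (p v) hP) (pos_of_apex h0) σ ((isFace_translate (p v) σ).2 h)
  exact ⟨F, (isFace_translate (p v) F).1 hF, fun h4 => hvσ (h3 v h4 h0), h1, h2⟩

theorem local_unique (hd : 3 ≤ d) {p : V → E d} (hP : IsSimplicialPolytope p) {u v : V}
    (h : IsFace p {u, v}) (g : E d →ₗ[ℝ] ℝ) (c : ℝ)
    (h0 : ∀ w, (w = u ∨ IsFace p {u, w}) → (w = v ∨ IsFace p {v, w}) → g (p w) + c = 0) :
    g = 0 ∧ c = 0 := by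
  obtain ⟨a, ha⟩ : ∃ a, a ∉ ({u, v} : Finset V) := by
    by_contra hcon
    push Not at hcon
    exact h.1 (Finset.eq_univ_iff_forall.2 hcon)
  obtain ⟨F, hF, haF, hsub, hcard⟩ := extend_face_at (by omega) hP a h ha
  have huF : u ∈ F := hsub (by simp)
  have hvF : v ∈ F := hsub (by simp)
  obtain ⟨a', ha'F, ha'⟩ : ∃ a' ∈ F, a' ∉ ({u, v} : Finset V) := by
    by_contra hcon
    push Not at hcon
    have h1 : F ⊆ {u, v} := hcon
    have h2 := Finset.card_le_card h1
    have h3 : ({u, v} : Finset V).card ≤ 2 := Finset.card_le_two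
    omega
  rw [Finset.mem_insert, Finset.mem_singleton, not_or] at ha'
  have hFe : IsFace p (F.erase a') := face_mono hP hF (Finset.erase_subset _ _)
  obtain ⟨F', hF', ha'F', hsub', hcard'⟩ := extend_face_at (by omega) hP a' hFe
    (Finset.notMem_erase _ _)
  obtain ⟨s, hsF', hs⟩ : ∃ s ∈ F', s ∉ F.erase a' := by
    by_contra hcon
    push Not at hcon
    have h1 : F' ⊆ F.erase a' := hcon
    have h2 := Finset.card_le_card h1
    rw [Finset.card_erase_of_mem ha'F] at h2
    omega
  have hsF : s ∉ F := by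
    intro h1
    apply hs
    rw [Finset.mem_erase]
    exact ⟨fun h2 => ha'F' (h2 ▸ hsF'), h1⟩
  have huF' : u ∈ F' := hsub' (Finset.mem_erase.2 ⟨fun h1 => ha'.1 h1.symm, huF⟩)
  have hvF' : v ∈ F' := hsub' (Finset.mem_erase.2 ⟨fun h1 => ha'.2 h1.symm, hvF⟩)
  have hadj : ∀ G : Finset V, IsFace p G → ∀ x ∈ G, ∀ w ∈ G, w = x ∨ IsFace p {x, w} := by
    intro G hG x hx w hw
    right
    apply face_mono hP hG
    intro y hy
    rw [Finset.mem_insert, Finset.mem_singleton] at hy
    rcases hy with rfl | rfl <;> assumption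
  have hzF : ∀ w ∈ F, g (p w) + c = 0 := fun w hw =>
    h0 w (hadj F hF u huF w hw) (hadj F hF v hvF w hw)
  have hzs : g (p s) + c = 0 :=
    h0 s (hadj F' hF' u huF' s hsF') (hadj F' hF' v hvF' s hsF')
  have h00 : (fun a => p a - p s) s = 0 := sub_self _
  have hgd : g = 0 := by
    refine facet_unique (isSimplicialPolytope_translate (p s) hP) (pos_of_apex h00)
      ((isFace_translate (p s) F).2 hF) ?_ hcard ?_
    · intro x hx hx0
      apply hsF
      have : x = s := p_inj hP (sub_eq_zero.1 hx0)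
      exact this ▸ hx
    · intro x hx
      rw [LinearMap.zero_apply, map_sub]
      have := hzF x hx
      linarith
  refine ⟨hgd, ?_⟩
  rw [hgd, LinearMap.zero_apply, zero_add] at hzs
  exact hzs

theorem affine_of_local (hd : 3 ≤ d) {p : V → E d} (hP : IsSimplicialPolytope p) (y : V → ℝ)
    (h : ∀ v, ∃ (l : E d →ₗ[ℝ] ℝ) (b : ℝ), y v = l (p v) + b ∧
      ∀ u, u ≠ v → IsFace p {v, u} → y u = l (p u) + b) :
    ∃ (l : E d →ₗ[ℝ] ℝ) (b : ℝ), ∀ u, y u = l (p u) + b := by
  classical
  choose l b h1 h2 using h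
  rcases isEmpty_or_nonempty V with hV | ⟨⟨v₀⟩⟩
  · exact ⟨0, 0, fun u => (hV.false u).elim⟩
  have hadj : ∀ u w, u ≠ w → IsFace p {u, w} → l w = l u ∧ b w = b u := by
    intro u w huw hf
    have key := local_unique hd hP hf (l w - l u) (b w - b u) (by
      intro x hx hx'
      have e1 : y x = l u (p x) + b u := by
        by_cases hxu : x = u
        · rw [hxu]; exact h1 u
        · exact h2 u x hxu (hx.resolve_left hxu)
      have e2 : y x = l w (p x) + b w := by
        by_cases hxw : x = w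
        · rw [hxw]; exact h1 w
        · exact h2 w x hxw (hx'.resolve_left hxw)
      rw [LinearMap.sub_apply]
      linarith)
    exact ⟨sub_eq_zero.1 key.1, sub_eq_zero.1 key.2⟩
  have hS := graph_connected (by omega) hP (Finset.univ.filter (fun u => l u = l v₀ ∧ b u = b v₀))
    ⟨v₀, by simp⟩ (by
      intro u hu w huw hf
      rw [Finset.mem_filter] at hu ⊢
      obtain ⟨e1, e2⟩ := hadj u w huw hf
      exact ⟨Finset.mem_univ _, e1.trans hu.2.1, e2.trans hu.2.2⟩)
  refine ⟨l v₀, b v₀, fun u => ?_⟩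
  have hu : u ∈ Finset.univ.filter (fun u => l u = l v₀ ∧ b u = b v₀) := by
    rw [hS]; exact Finset.mem_univ _
  rw [Finset.mem_filter] at hu
  rw [← hu.2.1, ← hu.2.2]
  exact h1 u

theorem SR_translate (p : V → E d) (t : E d) : SR (fun a => p a - t) = SR p := by
  unfold SR
  congr 1
  ext m
  simp only [Set.mem_ofPred_eq, isFace_translate]

theorem rel_translate {p : V → E d} {y : V → ℝ} (hy : Rel p y) (t : E d) :
    Rel (fun a => p a - t) y := by
  intro u
  obtain ⟨q, w, h⟩ := hy u
  refine ⟨q + ∑ j, t j • w j, w, ?_⟩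
  rw [SR_translate]
  have e1 : ∀ j : Fin d, L (fun a => (p a - t) j)
      = (L (fun a => p a j) : MvPolynomial V ℝ) - C (t j) * L (fun _ => 1) := by
    intro j
    have : (fun a => (p a - t) j) = (fun a => p a j) - t j • (fun _ : V => (1 : ℝ)) := by
      funext a
      simp
    rw [this, map_sub, map_smul, MvPolynomial.smul_eq_C_mul]
  have e : L y * L (dl u) - L (fun _ => 1) * L (q + ∑ j, t j • w j)
      - ∑ j, L (fun a => (p a - t) j) * L (w j)
      = L y * L (dl u) - L (fun _ => 1) * L q - ∑ j, L (fun a => p a j) * L (w j) := by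
    simp only [e1, map_add, map_sum, map_smul, MvPolynomial.smul_eq_C_mul, sub_mul,
      Finset.sum_sub_distrib, mul_add, Finset.mul_sum]
    have : ∑ j, C (t j) * L (fun _ => 1) * L (w j)
        = ∑ j, L (fun _ : V => (1 : ℝ)) * (C (t j) * L (w j)) :=
      Finset.sum_congr rfl fun j _ => by ring
    rw [this]
    ring
  rw [e]
  exact h

/-- A function satisfying the quadratic relations is affine. -/
theorem affine_of_rel (hd : 4 ≤ d) {p : V → E d} (hP : IsSimplicialPolytope p)
    (hmiss : ∀ S, IsMissingFace p S → S.card + 1 ≤ d) {y : V → ℝ} (hy : Rel p y) :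
    ∃ (l : E d →ₗ[ℝ] ℝ) (b : ℝ), ∀ u, y u = l (p u) + b := by
  refine affine_of_local (by omega) hP y (fun v => ?_)
  obtain ⟨l, b, h1, h2⟩ := local_affine hd (isSimplicialPolytope_translate (p v) hP)
    (v := v) (by simp) (by
      intro S hS
      apply hmiss
      unfold IsMissingFace at hS ⊢
      simpa only [isFace_translate] using hS) (rel_translate hy (p v))
  refine ⟨l, b - l (p v), ?_, ?_⟩
  · rw [h1, map_sub]; ring
  · intro u huv hu
    rw [h2 u huv ((isFace_translate _ _).mpr hu), map_sub]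
    ring

end Pool.Agent.K9h62.St
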