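import Pool.Agent.TH47.Lev.Core

/-!
# Dimension four: no bend at a triangle with an interior edge
(steps of `Pool.Agent.TH47.Lev.core`, which do not use its hypothesis on missing faces)
-/

namespace Pool.Agent.TH47.Lev

open MvPolynomial Finset

variable {V : Type} [Fintype V] [DecidableEq V]

/-- No bend at a triangle with an interior edge: steps A-D of `core`, without the hypothesis on
missing faces. -/
theorem bend4 {p : V → E} (hP : IsSimplicialPolytope p) {v : V} (hv : p v = 0)
    {y z : V → ℝ} {w : Fin 4 → V → ℝ} (hy : Rel p y)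
    (hR : L y * L (dl v) - L (fun _ => 1) * L z - ∑ j, L (fun a => p a j) * L (w j) ∈ SR p)
    (hyv : y v = 0) (hzv : z v = 0) (hyz : ∀ u, u ≠ v → IsFace p {v, u} → y u = z u)
    {α β γ : V} (hαβ : α ≠ β) (hαγ : α ≠ γ) (hβγ : β ≠ γ) (hedge : ¬ IsFace p {v, α, β})
    {s s' : V} (hvτ : v ∉ ({α, β, γ} : Finset V)) (hsv : s ≠ v) (hs'v : s' ≠ v)
    (hsτ : s ∉ ({α, β, γ} : Finset V)) (hs'τ : s' ∉ ({α, β, γ} : Finset V)) (hss : s ≠ s')
    (hfs : IsFace p (insert s {α, β, γ})) (hfs' : IsFace p (insert s' {α, β, γ}))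
    (l : E →ₗ[ℝ] ℝ) (hl : ∀ a ∈ insert s ({α, β, γ} : Finset V), z a = l (p a)) :
    z s' = l (p s') := by
  obtain ⟨D⟩ := exists_degFun hP hv
  have int_of : ∀ x u : V, ¬ IsFace p {v, x} → ¬ IsFace p {v, u, x} := fun x u h h' =>
    h (face_mono hP h' (by intro t; simp; tauto))
  -- (c, z) vanishes on interior edges
  have cz : ∀ α β, α ≠ β → α ≠ v → β ≠ v → IsFace p {α, β} → ¬ IsFace p {v, α, β} →
      D.deg (L (fun _ => 1) * L z * (X α * X β)) = 0 := by
    intro α β hαβ hα hβ he hi
    rw [deg_rel D hR (X α * X β)]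
    · rw [L_dl]
      refine (congrArg D.deg ?_).trans (D.d1 (L y * (X α * X β)))
      ring
    · intro l b
      refine (congrArg D.deg ?_).trans (D.d3 α β hαβ hα hβ he hi l b)
      ring
  have rad : ∀ α β, α ≠ β → α ≠ v → β ≠ v → IsFace p {α, β} → ¬ IsFace p {v, α, β} →
      0 ≤ D.deg (L z * L z * (X α * X β)) → ∀ b, D.deg (L z * L b * (X α * X β)) = 0 :=
    fun α β hαβ hα hβ he hi hz b =>
      polygon_deg hP hv D hαβ hα hβ he hi z (cz α β hαβ hα hβ he hi) hz b
  have npos : ∀ α β, α ≠ β → α ≠ v → β ≠ v → IsFace p {α, β} → ¬ IsFace p {v, α, β} →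
      D.deg (L z * L z * (X α * X β)) ≤ 0 := by
    intro α β hαβ hα hβ he hi
    by_contra h
    push Not at h
    have := rad α β hαβ hα hβ he hi h.le z
    linarith
  -- Step B
  have stepB : ∀ x, x ≠ v → ¬ IsFace p {v, x} → ∀ u, u ≠ x → ∀ b,
      D.deg (L z * L b * (X u * X x)) = 0 := by
    intro x hxv hx
    obtain ⟨l, hl1, hl2⟩ := supp_functional hv (hP.vertex x) (by simp [hxv.symm])
    have hlx : l (p x) = 1 := hl1 x (by simp)
    have hlt : ∀ u, u ≠ x → l (p u) < 1 := fun u hu => hl2 u (by simp [hu])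
    have h1 := deg_split D l (X x * L z * L z) (by
      refine (congrArg D.deg ?_).trans (D.d4 x hxv hx l z z)
      ring)
    have h0 : D.deg (L (fun _ => 1) * (X x * L z * L z)) = 0 := by
      have h2 := deg_rel D hR (X x * L z) (by
        intro l b
        refine (congrArg D.deg ?_).trans (D.d4 x hxv hx l b z)
        ring)
      have h3 : D.deg (L y * L (dl v) * (X x * L z)) = 0 := by
        rw [L_dl]
        refine (congrArg D.deg ?_).trans (D.d1 (L y * (X x * L z)))
        ring
      refine (congrArg D.deg ?_).trans (h2.trans h3)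
      ring
    rw [h0] at h1
    have hterm : ∀ u ∈ (univ : Finset V),
        (1 - l (p u)) * D.deg (X u * (X x * L z * L z)) ≤ 0 := by
      intro u _
      by_cases hux : u = x
      · rw [hux, hlx]; simp
      by_cases huv : u = v
      · rw [huv, D.d1]; simp
      have hpos : 0 < 1 - l (p u) := by have := hlt u hux; linarith
      by_cases hf : IsFace p {u, x}
      · have h4 := npos u x hux huv hxv hf (int_of x u hx)
        have h5 : D.deg (X u * (X x * L z * L z)) ≤ 0 := by
          refine le_trans (le_of_eq (congrArg D.deg ?_)) h4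
          ring
        exact mul_nonpos_of_nonneg_of_nonpos hpos.le h5
      · have h4 := deg_nonface2 D hux hf (L z * L z)
        have h5 : D.deg (X u * (X x * L z * L z)) = 0 := by
          refine (congrArg D.deg ?_).trans h4
          ring
        rw [h5, mul_zero]
    have hz0 := (Finset.sum_eq_zero_iff_of_nonpos hterm).mp h1.symm
    intro u hux b
    by_cases huv : u = v
    · rw [huv]
      refine (congrArg D.deg ?_).trans (D.d1 (L z * L b * X x))
      ring
    by_cases hf : IsFace p {u, x}
    · have h6 := hz0 u (mem_univ u)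
      have hpos : (1 - l (p u)) ≠ 0 := by have := hlt u hux; linarith
      have h7 := (mul_eq_zero.mp h6).resolve_left hpos
      refine rad u x hux huv hxv hf (int_of x u hx) (ge_of_eq ?_) b
      refine (congrArg D.deg ?_).trans h7
      ring
    · refine (congrArg D.deg ?_).trans (deg_nonface2 D hux hf (L z * L b))
      ring
  -- Step C
  obtain ⟨q, W, hq⟩ := rel_ext hy z
  obtain ⟨hqv, hqu⟩ := rel_coeff hP hv hq hyv
  obtain ⟨lin, hlin⟩ : ∃ lin : E →ₗ[ℝ] ℝ, ∀ a, lin (p a) = ∑ j, p a j * W j v := by
    refine ⟨∑ j, (W j v) • LinearMap.proj j, fun a => ?_⟩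
    simp [LinearMap.sum_apply, mul_comm]
  have hq'v : (q + ev p lin) v = 0 := by
    simp [ev, hv, hqv]
  have hq'u : ∀ u, u ≠ v → IsFace p {v, u} → (q + ev p lin) u = 0 := by
    intro u huv hu
    have h1 := hqu u huv hu
    simp only [Pi.add_apply, ev, hlin u]
    rw [← h1, hzv, mul_zero]
  have hq'w : ∀ x, x ≠ v → ¬ IsFace p {v, x} →
      D.deg (L (q + ev p lin) * L (dl x) * (L (fun _ => 1) * L (fun _ => 1))) = 0 := by
    intro x hxv hx
    have e1 : D.deg (L (ev p lin) * L (dl x) * (L (fun _ => 1) * L (fun _ => 1))) = 0 := by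
      rw [L_dl]
      refine (congrArg D.deg ?_).trans (D.d4 x hxv hx lin (fun _ => 1) (fun _ => 1))
      ring
    have e2 : D.deg (L q * L (dl x) * (L (fun _ => 1) * L (fun _ => 1))) = 0 := by
      have h2 := deg_rel D hq (L (fun _ => 1) * X x) (by
        intro l b
        refine (congrArg D.deg ?_).trans (D.d4 x hxv hx l b (fun _ => 1))
        ring)
      obtain ⟨l, hl1, hl2⟩ := supp_functional hv (hP.vertex x) (by simp [hxv.symm])
      have hlx : l (p x) = 1 := hl1 x (by simp)
      have h1 := deg_split D l (X x * L y * L z) (by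
        refine (congrArg D.deg ?_).trans (D.d4 x hxv hx l y z)
        ring)
      have h3 : ∑ u, (1 - l (p u)) * D.deg (X u * (X x * L y * L z)) = 0 := by
        refine Finset.sum_eq_zero fun u _ => ?_
        by_cases hux : u = x
        · rw [hux, hlx]; simp
        · have h4 : D.deg (X u * (X x * L y * L z)) = 0 := by
            refine (congrArg D.deg ?_).trans (stepB x hxv hx u hux y)
            ring
          rw [h4, mul_zero]
      rw [h3] at h1
      have h5 : D.deg (L y * L z * (L (fun _ => 1) * X x)) = 0 := by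
        refine (congrArg D.deg ?_).trans h1
        ring
      rw [L_dl]
      refine (congrArg D.deg ?_).trans (h2.trans h5)
      ring
    rw [map_add L, add_mul, add_mul, map_add, e1, e2, add_zero]
  have q'0 : q + ev p lin = 0 := by
    refine neg_def hP hv (form D.deg (L (fun _ => 1) * L (fun _ => 1))) ?_ ?_ ?_ ?_ ?_ _ hq'v
      hq'u ?_
    · intro a b
      rw [form_apply, form_apply, mul_comm (L a)]
    · intro x hxv hx l
      rw [form_apply, L_dl]
      refine (congrArg D.deg ?_).trans (D.d4 x hxv hx l (fun _ => 1) (fun _ => 1))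
      ring
    · intro u x hux hf
      rw [form_apply, L_dl, L_dl]
      exact deg_nonface2 D hux hf _
    · intro a
      rw [form_apply, L_dl, mul_assoc]
      exact D.d1 _
    · intro u x hux huv hxv hx hf
      rw [form_apply, L_dl, L_dl]
      have h1 := deg_pos_edge hP hv D hux huv hxv hf (int_of x u hx)
      refine lt_of_lt_of_eq h1 (congrArg D.deg ?_)
      ring
    · intro x hxv hx
      rw [form_apply]
      exact hq'w x hxv hx
  have stepC : ∀ α β, α ≠ β → α ≠ v → β ≠ v → IsFace p {α, β} → ¬ IsFace p {v, α, β} → ∀ b,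
      D.deg (L z * L b * (X α * X β)) = 0 := by
    intro α β hαβ hα hβ he hi b
    by_cases h1 : IsFace p {v, α}
    swap
    · refine (congrArg D.deg ?_).trans (stepB α hα h1 β (Ne.symm hαβ) b)
      ring
    by_cases h2 : IsFace p {v, β}
    swap
    · exact stepB β hβ h2 α hαβ b
    apply rad α β hαβ hα hβ he hi
    have e1 : L z * L z * (X α * X β)
        = L y * L z * (X α * X β) - L (y - z) * (L z * (X α * X β)) := by
      rw [map_sub]; ring
    have e2 : D.deg (L (y - z) * (L z * (X α * X β))) = 0 := by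
      rw [deg_L_mul']
      refine Finset.sum_eq_zero fun u _ => ?_
      by_cases huv : u = v
      · rw [huv, Pi.sub_apply, hyv, hzv, sub_zero, zero_mul]
      by_cases hu : IsFace p {v, u}
      · rw [Pi.sub_apply, hyz u huv hu, sub_self, zero_mul]
      · have hαu : α ≠ u := fun h => hu (h ▸ h1)
        have h3 := stepB u huv hu α hαu (dl β)
        rw [L_dl] at h3
        have h4 : D.deg (X u * (L z * (X α * X β))) = 0 := by
          refine (congrArg D.deg ?_).trans h3
          ring
        rw [h4, mul_zero]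
    have e3 : D.deg (L y * L z * (X α * X β)) = 0 := by
      rw [← deg_rel D hq (X α * X β) (by
        intro l b
        refine (congrArg D.deg ?_).trans (D.d3 α β hαβ hα hβ he hi l b)
        ring)]
      have hq2 : q = - ev p lin := eq_neg_of_add_eq_zero_left q'0
      have h5 := D.d3 α β hαβ hα hβ he hi lin (fun _ => 1)
      rw [hq2, map_neg]
      have e4 : L (fun _ => 1) * -L (ev p lin) * (X α * X β)
        = -(L (ev p lin) * X α * X β * L (fun _ => 1)) := by ring
      rw [e4, map_neg, h5, neg_zero]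
    rw [e1, map_sub, e2, e3, sub_zero]
  -- Step D
  have hτ3 : ({α, β, γ} : Finset V).card = 3 := by
    rw [card_insert_of_notMem (by simp [hαβ, hαγ]), card_pair hβγ]
  have hτ : IsFace p {α, β, γ} := face_mono hP hfs (Finset.subset_insert _ _)
  have hni : ¬ IsFace p (insert v {α, β, γ}) := fun h => hedge (face_mono hP h (by
    intro t; simp; tauto))
  have hvτ' := hvτ
  have hsτ' := hsτ
  have hs'τ' := hs'τ
  simp only [Finset.mem_insert, Finset.mem_singleton, not_or] at hvτ' hsτ' hs'τ'
  have hαv : α ≠ v := Ne.symm hvτ'.1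
  have hβv : β ≠ v := Ne.symm hvτ'.2.1
  have hγv : γ ≠ v := Ne.symm hvτ'.2.2
  have he : IsFace p {α, β} := face_mono hP hτ (by intro t; simp; tauto)
  have hprod : ∀ u, u ∉ ({α, β, γ} : Finset V) →
      ∏ a ∈ insert u ({α, β, γ} : Finset V), (X a : MvPolynomial V ℝ)
        = X u * (X α * X β * X γ) := by
    intro u hu
    rw [Finset.prod_insert hu, Finset.prod_insert (by simp [hαβ, hαγ]), Finset.prod_pair hβγ]
    ring
  -- deg (x_τ z) = 0
  have hz1 : D.deg (L z * (X α * X β * X γ)) = 0 := by
    have := stepC α β hαβ hαv hβv he hedge (dl γ)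
    rw [L_dl] at this
    refine (congrArg D.deg ?_).trans this
    ring
  have hz2 : D.deg (L (ev p l) * (X α * X β * X γ)) = 0 := by
    have := D.d3 α β hαβ hαv hβv he hedge l (dl γ)
    rw [L_dl] at this
    refine (congrArg D.deg ?_).trans this
    ring
  have hz3 : D.deg (L (z - ev p l) * (X α * X β * X γ)) = 0 := by
    rw [map_sub, sub_mul, map_sub, hz1, hz2, sub_zero]
  rw [deg_L_mul'] at hz3
  -- only s' contributes
  obtain ⟨g, hg0, hgτ⟩ : ∃ g : E →ₗ[ℝ] ℝ, g ≠ 0 ∧ ∀ a ∈ ({α, β, γ} : Finset V), g (p a) = 0 := by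
    obtain ⟨g, hg⟩ := interp hP hv hfs (by
      simp only [Finset.mem_insert, Finset.mem_singleton, not_or]
      exact ⟨Ne.symm hsv, hvτ'⟩) (dl s)
    refine ⟨g, ?_, ?_⟩
    · rintro rfl
      have := hg s (Finset.mem_insert_self _ _)
      simp [dl] at this
    · intro a ha
      have h1 := hg a (Finset.mem_insert_of_mem ha)
      rw [h1]
      have : a ≠ s := fun h => hsτ (h ▸ ha)
      simp [dl, this]
  obtain ⟨s1, s2, h1v, h2v, h1τ, h2τ, hg1, hg2, hf1, hf2, huniq⟩ :=
    two_facets hP hv hτ3 hτ hvτ hni g hg0 hgτ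
  have hss1 := huniq s hsτ hsv hfs
  have hss2 := huniq s' hs'τ hs'v hfs'
  have huniq' : ∀ u, u ∉ ({α, β, γ} : Finset V) → u ≠ v → IsFace p (insert u {α, β, γ}) →
      u = s ∨ u = s' := by
    intro u h1 h2 h3
    rcases huniq u h1 h2 h3 with h | h <;> rcases hss1 with h' | h' <;>
      rcases hss2 with h'' | h'' <;>
      first
        | exact Or.inl (h.trans h'.symm)
        | exact Or.inr (h.trans h''.symm)
        | exact absurd (h'.trans h''.symm) hss
  rw [Finset.sum_eq_single s'] at hz3
  · have h1 : 0 < D.deg (X s' * (X α * X β * X γ)) := by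
      rw [← hprod s' hs'τ]
      refine D.d5 _ hfs' ?_ ?_
      · simp only [Finset.mem_insert, Finset.mem_singleton, not_or]
        exact ⟨Ne.symm hs'v, hvτ'⟩
      · rw [Finset.card_insert_of_notMem hs'τ, hτ3]
    have h2 := (mul_eq_zero.mp hz3).resolve_right h1.ne'
    simp only [Pi.sub_apply, ev] at h2
    linarith
  · intro u _ hu
    by_cases huv : u = v
    · rw [huv, D.d1, mul_zero]
    by_cases huτ : u ∈ insert s ({α, β, γ} : Finset V)
    · have := hl u huτ
      rw [Pi.sub_apply, ev, this, sub_self, zero_mul]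
    · simp only [Finset.mem_insert, not_or] at huτ
      have huτ2 : u ∉ ({α, β, γ} : Finset V) := by
        simp only [Finset.mem_insert, not_or]; exact huτ.2
      by_cases hf : IsFace p (insert u {α, β, γ})
      · rcases huniq' u huτ2 huv hf with h | h
        · exact absurd h huτ.1
        · exact absurd h hu
      · have h3 := D.d2 _ (SR_prod hf)
        rw [hprod u huτ2] at h3
        rw [h3, mul_zero]
  · intro h
    exact absurd (mem_univ s') h


end Pool.Agent.TH47.Lev
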