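import Pool.Agent.K9h62.St.Trans
import Pool.Agent.K9h62.St.CoreFour

/-!
# No bends at the ridges near the link of the apex
-/

namespace Pool.Agent.K9h62.St

open MvPolynomial Finset
open Pool.Agent.TH47.Lev (L L_apply dl L_dl)

variable {V : Type} [Fintype V] [DecidableEq V] {d : ℕ}

theorem four_poly {p : V → E 4} (hP : IsSimplicialPolytope p) :
    Pool.Agent.TH47.Lev.IsSimplicialPolytope p :=
  ⟨hP.spans, hP.vertex, hP.simplicial⟩

omit [Fintype V] [DecidableEq V] in
theorem lin_mono {p : V → E d} {z : V → ℝ} {S T : Finset V} (h : Lin p z T) (hST : S ⊆ T) :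
    Lin p z S := by
  obtain ⟨l, hl⟩ := h
  exact ⟨l, fun a ha => hl a (hST ha)⟩

/-- dimension four -/
theorem bend_four {p : V → E 4} (hP : IsSimplicialPolytope p) {u : V} (hu : p u = 0)
    {y z : V → ℝ} (hy : Rel p y) (hR : Mult p (dl u) y z) (hyu : y u = 0) (hzu : z u = 0)
    (hyz : ∀ b, b ≠ u → IsFace p {u, b} → y b = z b) {τ : Finset V} {w s s' : V}
    (hτ : τ.card = 3) (huτ : u ∉ τ) (hw : w ∈ τ) (hint : ¬ IsFace p (insert u (τ.erase w)))
    (hsu : s ≠ u) (hs'u : s' ≠ u) (hs : s ∉ τ) (hs' : s' ∉ τ) (hss : s ≠ s')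
    (hf : IsFace p (insert s τ)) (hf' : IsFace p (insert s' τ)) :
    Lin p z (insert s (insert s' τ)) := by
  have h2 : (τ.erase w).card = 2 := by rw [card_erase_of_mem hw, hτ]
  obtain ⟨α, β, hαβ, hE⟩ := card_eq_two.1 h2
  have hτe : τ = {α, β, w} := by
    rw [← insert_erase hw, hE]
    ext x
    simp only [mem_insert, mem_singleton]
    tauto
  have hαw : α ≠ w := by
    have : α ∈ τ.erase w := by rw [hE]; simp
    exact (mem_erase.1 this).1
  have hβw : β ≠ w := by
    have : β ∈ τ.erase w := by rw [hE]; simp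
    exact (mem_erase.1 this).1
  rw [hE] at hint
  subst hτe
  have hP4 := four_poly hP
  obtain ⟨l, hl⟩ := Pool.Agent.TH47.Lev.interp hP4 hu hf (by
    rw [mem_insert, not_or]; exact ⟨hsu.symm, huτ⟩) z
  obtain ⟨W, hW⟩ := hR
  refine ⟨l, ?_⟩
  have h3 := Pool.Agent.TH47.Lev.bend4 hP4 hu (y := y) (z := z) (w := W) (by
      intro v
      obtain ⟨t, W', h⟩ := hy v
      refine ⟨t, W', ?_⟩
      rw [L_dl] at h
      exact h) hW hyu hzu hyz hαβ hαw hβw hint huτ hsu hs'u hs hs' hss hf hf' l
      (fun a ha => (hl a ha).symm)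
  intro a ha
  rw [mem_insert, mem_insert] at ha
  rcases ha with rfl | rfl | ha
  · exact (hl _ (mem_insert_self _ _)).symm
  · exact h3
  · exact (hl _ (mem_insert_of_mem ha)).symm

theorem bend_main : ∀ (d : ℕ), 4 ≤ d → ∀ (V : Type) [Fintype V] [DecidableEq V] (p : V → E d),
    IsSimplicialPolytope p → ∀ (u : V), p u = 0 → ∀ (y z : V → ℝ), Rel p y →
    Mult p (dl u) y z → y u = 0 → z u = 0 → (∀ b, b ≠ u → IsFace p {u, b} → y b = z b) →
    ∀ (τ κ : Finset V) (w s s' : V), τ.card + 1 = d → u ∉ τ → w ∈ τ → κ ⊆ τ.erase w →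
    κ.card + 4 = d → IsFace p (insert u κ) → ¬ IsFace p (insert u (τ.erase w)) →
    s ≠ u → s' ≠ u → s ∉ τ → s' ∉ τ → s ≠ s' → IsFace p (insert s τ) → IsFace p (insert s' τ) →
    Lin p z (insert s (insert s' τ)) := by
  intro d hd
  induction d, hd using Nat.le_induction with
  | base =>
    intro V _ _ p hP u hu y z hy hR hyu hzu hyz τ κ w s s' hτ huτ hw hκ hκc hκf hint hsu hs'u hs hs'
      hss hf hf'
    exact bend_four hP hu hy hR hyu hzu hyz (by omega) huτ hw hint hsu hs'u hs hs' hss hf hf'
  | succ d hd ih =>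
    intro V _ _ p hP u hu y z hy hR hyu hzu hyz τ κ w s s' hτ huτ hw hκ hκc hκf hint hsu hs'u hs hs'
      hss hf hf'
    have hd1 : 1 ≤ d := by omega
    have hpos := pos_of_apex hu
    obtain ⟨a, haκ⟩ : κ.Nonempty := by
      rw [← card_pos]
      omega
    have haτ : a ∈ τ := (mem_erase.1 (hκ haκ)).2
    have haw : a ≠ w := (mem_erase.1 (hκ haκ)).1
    have hau : a ≠ u := fun h => huτ (h ▸ haτ)
    have hpa : p a ≠ 0 := fun h => hau (p_inj hP (by rw [h, hu]))
    obtain ⟨D⟩ := exists_linkData hP hpos hpa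
    have hτf : IsFace p τ := face_mono hP hf (subset_insert _ _)
    have hau_f : IsFace p {a, u} := face_mono hP hκf (by
      intro t ht
      rw [mem_insert, mem_singleton] at ht
      rcases ht with rfl | rfl
      · exact mem_insert_of_mem haκ
      · exact mem_insert_self _ _)
    have hmem : ∀ x, x ∈ τ → x ≠ a → x ≠ a ∧ IsFace p {a, x} := fun x hx hxa =>
      ⟨hxa, face_mono hP hτf (by
        intro t ht
        rw [mem_insert, mem_singleton] at ht
        rcases ht with rfl | rfl
        · exact haτ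
        · exact hx)⟩
    have hmem' : ∀ x, x ∉ τ → IsFace p (insert x τ) → x ≠ a ∧ IsFace p {a, x} := fun x hx hf =>
      ⟨fun h => hx (h ▸ haτ), face_mono hP hf (by
        intro t ht
        rw [mem_insert, mem_singleton] at ht
        rcases ht with rfl | rfl
        · exact mem_insert_of_mem haτ
        · exact mem_insert_self _ _)⟩
    set u' : Lk p a := ⟨u, hau.symm, hau_f⟩ with hu'
    set w' : Lk p a := ⟨w, hmem w hw haw.symm⟩ with hw'
    set s1 : Lk p a := ⟨s, hmem' s hs hf⟩ with hs1
    set s2 : Lk p a := ⟨s', hmem' s' hs' hf'⟩ with hs2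
    have hh : D.h (p u) = 0 := by rw [hu, map_zero]
    have hfaceUp : ∀ x (hx : x ∉ τ) (hf : IsFace p (insert x τ)),
        IsFace D.q (insert (⟨x, hmem' x hx hf⟩ : Lk p a) (dn a τ)) := by
      intro x hx hf
      apply link_face_sub hd1 hP D hf
      intro t ht
      rw [mem_up] at ht
      rcases ht with rfl | ⟨c, hc, rfl⟩
      · exact mem_insert_of_mem haτ
      · rw [mem_insert] at hc
        rcases hc with rfl | hc
        · exact mem_insert_self _ _
        · exact mem_insert_of_mem (mem_dn.1 hc)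
    have key := ih (Lk p a) D.q (link_polytope hd1 hP D) u' ((q_zero hpos D u').2 hu)
      (D.r y) (D.r z) (rel_fwd hd1 hP D hy) (by
        have h1 := mult_fwd hd1 hP D hR
        have h2 : D.r (dl u) = dl u' := by
          have := r_dl_near D u'
          rw [this]
          simp [hu', hh]
        rwa [h2] at h1)
      (by simp [LinkData.r, hu', hyu, hh]) (by simp [LinkData.r, hu', hzu, hh]) (by
        intro b hb hbf
        have h1 : IsFace p (up {u', b}) := (link_face hd1 hP D _).1 hbf
        have h2 : y b.1 = z b.1 := hyz b.1 (fun h => hb (Subtype.ext h)) (face_mono hP h1 (by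
          intro t ht
          rw [mem_insert, mem_singleton] at ht
          rw [mem_up]
          rcases ht with rfl | rfl
          · exact Or.inr ⟨u', by simp, rfl⟩
          · exact Or.inr ⟨b, by simp, rfl⟩))
        have h3 : y a = z a := hyz a hau (by rw [Finset.pair_comm]; exact hau_f)
        unfold LinkData.r
        rw [h2, h3])
      (dn a τ) (dn a κ) w' s1 s2 (by
        have := card_up (dn a τ : Finset (Lk p a))
        rw [up_dn hP haτ hτf] at this
        omega)
      (fun h => huτ (mem_dn.1 h)) (mem_dn.2 hw) (by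
        intro x hx
        have h1 := mem_erase.1 (hκ (mem_dn.1 hx))
        exact mem_erase.2 ⟨fun h => h1.1 (congrArg Subtype.val h), mem_dn.2 h1.2⟩) (by
        have := card_up (dn a κ : Finset (Lk p a))
        rw [up_dn hP haκ (face_mono hP hκf (subset_insert _ _))] at this
        omega) (by
        apply link_face_sub hd1 hP D hκf
        intro t ht
        rw [mem_up] at ht
        rcases ht with rfl | ⟨c, hc, rfl⟩
        · exact mem_insert_of_mem haκ
        · rw [mem_insert] at hc
          rcases hc with rfl | hc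
          · exact mem_insert_self _ _
          · exact mem_insert_of_mem (mem_dn.1 hc)) (by
        intro h
        apply hint
        refine face_mono hP ((link_face hd1 hP D _).1 h) ?_
        intro t ht
        rw [mem_insert, mem_erase] at ht
        rw [mem_up]
        rcases ht with rfl | ⟨h1, h2⟩
        · exact Or.inr ⟨u', mem_insert_self _ _, rfl⟩
        · by_cases hta : t = a
          · exact Or.inl hta
          · refine Or.inr ⟨⟨t, hmem t h2 hta⟩, mem_insert_of_mem (mem_erase.2 ⟨?_, mem_dn.2 h2⟩), rfl⟩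
            exact fun h => h1 (congrArg Subtype.val h))
      (fun h => hsu (congrArg Subtype.val h)) (fun h => hs'u (congrArg Subtype.val h))
      (fun h => hs (mem_dn.1 h)) (fun h => hs' (mem_dn.1 h))
      (fun h => hss (congrArg Subtype.val h)) (hfaceUp s hs hf) (hfaceUp s' hs' hf')
    refine lin_mono (lin_back D key) ?_
    intro t ht
    rw [mem_up]
    by_cases hta : t = a
    · exact Or.inl hta
    right
    rw [mem_insert, mem_insert] at ht
    rcases ht with rfl | rfl | ht
    · exact ⟨s1, mem_insert_self _ _, rfl⟩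
    · exact ⟨s2, mem_insert_of_mem (mem_insert_self _ _), rfl⟩
    · exact ⟨⟨t, hmem t ht hta⟩, mem_insert_of_mem (mem_insert_of_mem (mem_dn.2 ht)), rfl⟩

end Pool.Agent.K9h62.St
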