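import Pool.Agent.K9h62.St.Defs
import Pool.Agent.K9h62.St.Basic

/-!
# Connectivity of the graph of a simplicial polytope (job LEV-H)
-/

namespace Pool.Agent.K9h62.St

open MvPolynomial Finset
open Pool.Agent.TH47.Lev (L L_apply dl L_dl)

variable {V : Type} [Fintype V] [DecidableEq V] {d : ℕ}

omit [Fintype V] [DecidableEq V] in
lemma gc_const {p : V → E d} (hs : affineSpan ℝ (Set.range p) = ⊤) (h : E d →ₗ[ℝ] ℝ) (b : ℝ)
    (hb : ∀ a, h (p a) = b) : h = 0 := by
  have h1 : ∀ x ∈ affineSpan ℝ (Set.range p), h x = b := by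
    intro x hx
    refine affineSpan_induction (p := fun x => h x = b) hx ?_ ?_
    · rintro _ ⟨a, rfl⟩
      exact hb a
    · intro c u v w hu hv hw
      simp only [vsub_eq_sub, vadd_eq_add, map_add, map_smul, map_sub, hu, hv, hw]
      simp
  have h2 : ∀ x, h x = b := fun x => h1 x (by rw [hs]; trivial)
  have h3 : b = 0 := by
    have := h2 0
    rw [map_zero] at this
    exact this.symm
  ext x
  simp [h2, h3]

/-- the difference of the maxima over `S` and over the complement -/
noncomputable def gc_D (p : V → E d) (S : Finset V) (hS : S.Nonempty) (hC : (Sᶜ : Finset V).Nonempty)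
    (h : E d →ₗ[ℝ] ℝ) : ℝ := S.sup' hS (fun a => h (p a)) - (Sᶜ).sup' hC (fun a => h (p a))

lemma gc_ne {p : V → E d} (hP : IsSimplicialPolytope p) (S : Finset V)
    (hS : S.Nonempty) (hC : (Sᶜ : Finset V).Nonempty)
    (hcl : ∀ u ∈ S, ∀ w, u ≠ w → IsFace p {u, w} → w ∈ S) (h : E d →ₗ[ℝ] ℝ) (h0 : h ≠ 0) :
    gc_D p S hS hC h ≠ 0 := by
  intro hD
  unfold gc_D at hD
  obtain ⟨a, ha, ha2⟩ := Finset.exists_mem_eq_sup' hS (fun a => h (p a))
  obtain ⟨c, hc, hc2⟩ := Finset.exists_mem_eq_sup' hC (fun a => h (p a))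
  have hac : h (p a) = h (p c) := by linarith
  have hle : ∀ x, h (p x) ≤ h (p a) := by
    intro x
    by_cases hx : x ∈ S
    · rw [← ha2]
      exact Finset.le_sup' (fun a => h (p a)) hx
    · rw [hac, ← hc2]
      exact Finset.le_sup' (fun a => h (p a)) (Finset.mem_compl.2 hx)
  have hface : IsFace p (univ.filter (fun x => h (p x) = h (p a))) := by
    refine ⟨?_, h, h (p a), ?_, ?_⟩
    · intro hu
      refine h0 (gc_const hP.spans h (h (p a)) (fun x => ?_))
      have : x ∈ univ.filter (fun x => h (p x) = h (p a)) := by rw [hu]; exact Finset.mem_univ x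
      exact (Finset.mem_filter.1 this).2
    · intro x hx
      exact (Finset.mem_filter.1 hx).2
    · intro x hx
      refine lt_of_le_of_ne (hle x) (fun he => hx ?_)
      exact Finset.mem_filter.2 ⟨Finset.mem_univ x, he⟩
  have hne : a ≠ c := by
    rintro rfl
    exact (Finset.mem_compl.1 hc) ha
  have hpair : IsFace p {a, c} := by
    refine face_mono hP hface ?_
    intro x hx
    rw [Finset.mem_insert, Finset.mem_singleton] at hx
    rcases hx with rfl | rfl
    · exact Finset.mem_filter.2 ⟨Finset.mem_univ _, rfl⟩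
    · exact Finset.mem_filter.2 ⟨Finset.mem_univ _, hac.symm⟩
  exact (Finset.mem_compl.1 hc) (hcl a ha c hne hpair)

lemma gc_path {p : V → E d} (hP : IsSimplicialPolytope p) (S : Finset V)
    (hS : S.Nonempty) (hC : (Sᶜ : Finset V).Nonempty)
    (hcl : ∀ u ∈ S, ∀ w, u ≠ w → IsFace p {u, w} → w ∈ S) (f k : E d →ₗ[ℝ] ℝ) (h0 : f ≠ 0)
    (hk : k ∉ Submodule.span ℝ {f}) :
    0 < gc_D p S hS hC f * gc_D p S hS hC k := by
  by_contra hcon
  push Not at hcon
  set F : ℝ → ℝ := fun s => gc_D p S hS hC ((1 - s) • f + s • k) with hF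
  have hcont : Continuous F := by
    rw [hF]
    unfold gc_D
    refine Continuous.sub ?_ ?_
    · refine Continuous.finset_sup'_apply hS (fun a _ => ?_)
      simp only [LinearMap.add_apply, LinearMap.smul_apply, smul_eq_mul]
      fun_prop
    · refine Continuous.finset_sup'_apply hC (fun a _ => ?_)
      simp only [LinearMap.add_apply, LinearMap.smul_apply, smul_eq_mul]
      fun_prop
  have hF0 : F 0 = gc_D p S hS hC f := by simp [hF]
  have hF1 : F 1 = gc_D p S hS hC k := by simp [hF]
  have hz : (0:ℝ) ∈ Set.uIcc (F 0) (F 1) := by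
    rw [hF0, hF1, Set.mem_uIcc]
    rcases le_total 0 (gc_D p S hS hC f) with h1 | h1
    · by_cases h2 : gc_D p S hS hC k ≤ 0
      · exact Or.inr ⟨h2, h1⟩
      · push Not at h2
        have h3 : gc_D p S hS hC f = 0 := by nlinarith
        exact Or.inl ⟨h3.le, h2.le⟩
    · by_cases h2 : 0 ≤ gc_D p S hS hC k
      · exact Or.inl ⟨h1, h2⟩
      · push Not at h2
        have h3 : gc_D p S hS hC f = 0 := by nlinarith
        exact Or.inr ⟨h2.le, h3.ge⟩
  obtain ⟨s, _, hs⟩ := intermediate_value_uIcc hcont.continuousOn hz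
  refine gc_ne hP S hS hC hcl _ ?_ hs
  intro hzero
  by_cases hs0 : s = 0
  · subst hs0
    apply h0
    simpa using hzero
  · apply hk
    rw [Submodule.mem_span_singleton]
    refine ⟨-(1 - s) / s, ?_⟩
    refine LinearMap.ext (fun x => ?_)
    have h2 := congrArg (fun h : E d →ₗ[ℝ] ℝ => h x) hzero
    simp only [LinearMap.add_apply, LinearMap.smul_apply, smul_eq_mul, LinearMap.zero_apply] at h2 ⊢
    field_simp
    linarith

/-- connectivity of the graph -/
theorem graph_connected (hd : 2 ≤ d) {p : V → E d} (hP : IsSimplicialPolytope p) (S : Finset V)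
    (hS : S.Nonempty) (hcl : ∀ u ∈ S, ∀ w, u ≠ w → IsFace p {u, w} → w ∈ S) :
    S = Finset.univ := by
  by_contra hne
  have hC : (Sᶜ : Finset V).Nonempty := by
    rw [Finset.nonempty_iff_ne_empty]
    intro h
    exact hne (Finset.compl_eq_empty_iff S |>.1 h)
  obtain ⟨u, hu⟩ := hS
  have hS : S.Nonempty := ⟨u, hu⟩
  obtain ⟨w, hw⟩ := hC
  have hC : (Sᶜ : Finset V).Nonempty := ⟨w, hw⟩
  have hwS : w ∉ S := Finset.mem_compl.1 hw
  obtain ⟨_, f, b, hf1, hf2⟩ := hP.vertex u
  obtain ⟨_, g, c, hg1, hg2⟩ := hP.vertex w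
  have huw : u ≠ w := fun h => hwS (h ▸ hu)
  have hfw : f (p w) < f (p u) := by
    rw [hf1 u (Finset.mem_singleton_self u)]
    exact hf2 w (by rw [Finset.mem_singleton]; exact huw.symm)
  have hgu : g (p u) < g (p w) := by
    rw [hg1 w (Finset.mem_singleton_self w)]
    exact hg2 u (by rw [Finset.mem_singleton]; exact huw)
  have hf0 : f ≠ 0 := by
    rintro rfl
    simp at hfw
  have hg0 : g ≠ 0 := by
    rintro rfl
    simp at hgu
  have hDf : 0 < gc_D p S hS hC f := by
    unfold gc_D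
    have h1 : f (p u) ≤ S.sup' hS (fun a => f (p a)) := Finset.le_sup' (fun a => f (p a)) hu
    have h2 : (Sᶜ).sup' hC (fun a => f (p a)) < f (p u) := by
      rw [Finset.sup'_lt_iff]
      intro x hx
      rw [hf1 u (Finset.mem_singleton_self u)]
      refine hf2 x ?_
      rw [Finset.mem_singleton]
      rintro rfl
      exact (Finset.mem_compl.1 hx) hu
    linarith
  have hDg : gc_D p S hS hC g < 0 := by
    unfold gc_D
    have h1 : g (p w) ≤ (Sᶜ).sup' hC (fun a => g (p a)) := Finset.le_sup' (fun a => g (p a)) hw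
    have h2 : S.sup' hS (fun a => g (p a)) < g (p w) := by
      rw [Finset.sup'_lt_iff]
      intro x hx
      rw [hg1 w (Finset.mem_singleton_self w)]
      refine hg2 x ?_
      rw [Finset.mem_singleton]
      rintro rfl
      exact hwS hx
    linarith
  obtain ⟨k, hkf, hkg⟩ : ∃ k : E d →ₗ[ℝ] ℝ, k ∉ Submodule.span ℝ {f} ∧ k ∉ Submodule.span ℝ {g} := by
    have hdim : Module.finrank ℝ (E d →ₗ[ℝ] ℝ) = d := by
      rw [Module.finrank_linearMap]
      simp
    have hex : ∀ f : E d →ₗ[ℝ] ℝ, ∃ k, k ∉ Submodule.span ℝ {f} := by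
      intro f
      by_contra hall
      push Not at hall
      have htop : Submodule.span ℝ {f} = ⊤ := by
        rw [eq_top_iff]
        intro x _
        exact hall x
      have h1 := finrank_span_le_card (R := ℝ) ({f} : Set (E d →ₗ[ℝ] ℝ))
      rw [htop, finrank_top, hdim] at h1
      simp at h1
      omega
    obtain ⟨k1, h1⟩ := hex f
    obtain ⟨k2, h2⟩ := hex g
    by_cases h3 : k1 ∈ Submodule.span ℝ {g}
    · by_cases h4 : k2 ∈ Submodule.span ℝ {f}
      · refine ⟨k1 + k2, fun h => h1 ?_, fun h => h2 ?_⟩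
        · exact (Submodule.add_mem_iff_left _ h4).1 h
        · exact (Submodule.add_mem_iff_right _ h3).1 h
      · exact ⟨k2, h4, h2⟩
    · exact ⟨k1, h1, h3⟩
  have h1 := gc_path hP S hS hC hcl f k hf0 hkf
  have h2 := gc_path hP S hS hC hcl g k hg0 hkg
  have h3 : 0 < gc_D p S hS hC k := by
    by_contra h
    push Not at h
    nlinarith
  nlinarith

end Pool.Agent.K9h62.St
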