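import Pool.Agent.TH47.Lev.Defs

/-!
# Simplicial polytopes in dimension `d`, affine stresses and multipliers (MP_d1780f_co)

`V` is the (finite) vertex set, `p : V → ℝ^d` gives the positions.
-/

namespace Pool.Agent.K9h62.St

open MvPolynomial Finset
open Pool.Agent.TH47.Lev (L L_apply dl L_dl)

/-- Euclidean `d`-space, as functions `Fin d → ℝ`. -/
abbrev E (d : ℕ) : Type := Fin d → ℝ

variable {V : Type} [Fintype V] [DecidableEq V] {d : ℕ}

/-- `σ` is (the vertex set of) a proper face of the convex hull of the points `p a`: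
some linear functional takes its maximum over the points exactly on `σ`, and `σ` is not
everything. -/
def IsFace (p : V → E d) (σ : Finset V) : Prop :=
  σ ≠ Finset.univ ∧ ∃ (f : E d →ₗ[ℝ] ℝ) (b : ℝ),
    (∀ a ∈ σ, f (p a) = b) ∧ ∀ a, a ∉ σ → f (p a) < b

/-- The points `p a` are the vertices of a simplicial `d`-polytope (their convex hull). -/
structure IsSimplicialPolytope (p : V → E d) : Prop where
  spans : affineSpan ℝ (Set.range p) = ⊤
  vertex : ∀ a, IsFace p {a}
  simplicial : ∀ σ, IsFace p σ → AffineIndependent ℝ (fun a : {x // x ∈ σ} => p a)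

/-- A missing face of the boundary complex. -/
def IsMissingFace (p : V → E d) (S : Finset V) : Prop :=
  ¬ IsFace p S ∧ ∀ T, T ⊂ S → IsFace p T

/-- The Stanley-Reisner ideal of the boundary complex. -/
noncomputable def SR (p : V → E d) : Ideal (MvPolynomial V ℝ) :=
  Ideal.span {m | ∃ σ : Finset V, ¬ IsFace p σ ∧ m = ∏ a ∈ σ, X a}

/-- `u` is an affine `i`-stress of the simplicial polytope with vertices `p v`: a homogeneous
polynomial of degree `i`, all of whose monomials are supported on faces of the boundary complex,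
annihilated by `∑ ∂/∂x_v` and by `∑ p(v)_k ∂/∂x_v` for every coordinate `k`. -/
def IsAffineStress (i : ℕ) (p : V → E d) (u : MvPolynomial V ℝ) : Prop :=
  u.IsHomogeneous i ∧ (∀ m ∈ u.support, IsFace p m.support) ∧
    ∑ v, pderiv v u = 0 ∧ ∀ k : Fin d, ∑ v, C (p v k) * pderiv v u = 0

/-- The relation `δ y = ω z + ∑ θ_j w_j` in the face ring, for linear forms. -/
def Mult (p : V → E d) (δ y z : V → ℝ) : Prop :=
  ∃ w : Fin d → V → ℝ,
    L y * L δ - L (fun _ => 1) * L z - ∑ j, L (fun a => p a j) * L (w j) ∈ SR p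

/-- every product `x_u y` is of the form `ω z + ∑ θ_j w_j`. -/
def Rel (p : V → E d) (y : V → ℝ) : Prop := ∀ u, ∃ z, Mult p (dl u) y z

/-- `z` is given by a linear functional on the vertices in `S`. -/
def Lin (p : V → E d) (z : V → ℝ) (S : Finset V) : Prop :=
  ∃ l : E d →ₗ[ℝ] ℝ, ∀ a ∈ S, z a = l (p a)

/-- every face which does not contain the origin has a normalised supporting functional -/
def Pos (p : V → E d) : Prop := ∀ σ, IsFace p σ → (∀ a ∈ σ, p a ≠ 0) →
  ∃ h : E d →ₗ[ℝ] ℝ, (∀ a ∈ σ, h (p a) = 1) ∧ ∀ a, a ∉ σ → h (p a) < 1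

/-- vertices of the link of `a` -/
abbrev Lk (p : V → E d) (a : V) : Type := {b : V // b ≠ a ∧ IsFace p {a, b}}

noncomputable instance (p : V → E d) (a : V) : Fintype (Lk p a) := Fintype.ofFinite _

/-- a normalised supporting functional of the vertex `a` and a projection along `p a` -/
structure LinkData (p : V → E (d + 1)) (a : V) where
  h : E (d + 1) →ₗ[ℝ] ℝ
  π : E (d + 1) →ₗ[ℝ] E d
  ha : h (p a) = 1
  hb : ∀ b, b ≠ a → h (p b) < 1
  surj : Function.Surjective π
  ker : ∀ x, π x = 0 → ∃ c : ℝ, x = c • p a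
  ka : π (p a) = 0

/-- the positions of the vertices of the link -/
noncomputable def LinkData.q {p : V → E (d + 1)} {a : V} (D : LinkData p a) :
    Lk p a → E d := fun b => (1 - D.h (p b.1))⁻¹ • D.π (p b.1)

/-- the set of vertices of the polytope given by a set of vertices of the link -/
def up {p : V → E d} {a : V} (ρ : Finset (Lk p a)) : Finset V :=
  insert a (ρ.map ⟨Subtype.val, Subtype.val_injective⟩)

/-- a function on the link induced by a function on the vertices -/
noncomputable def LinkData.r {p : V → E (d + 1)} {a : V} (D : LinkData p a) (z : V → ℝ) :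
    Lk p a → ℝ := fun b => (1 - D.h (p b.1))⁻¹ * (z b.1 - z a * D.h (p b.1))

end Pool.Agent.K9h62.St
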