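import Pool.Agent.K9h62.St.Link

/-!
# Facets: extension of faces, and no three facets at a ridge
-/

namespace Pool.Agent.K9h62.St

open MvPolynomial Finset
open Pool.Agent.TH47.Lev (L L_apply dl L_dl)

variable {V : Type} [Fintype V] [DecidableEq V] {d : ℕ}

theorem pos_of_apex {p : V → E d} {u : V} (hu : p u = 0) : Pos p := by
  intro σ hσ hn
  exact supp_functional hu hσ (fun h => hn u h hu)

theorem p_inj {p : V → E d} (hP : IsSimplicialPolytope p) : Function.Injective p := by
  intro a b hab
  by_contra hne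
  obtain ⟨_, f, c, h1, h2⟩ := hP.vertex a
  have h3 := h1 a (mem_singleton_self a)
  have h4 := h2 b (by rw [mem_singleton]; exact fun h => hne h.symm)
  rw [← hab, h3] at h4
  exact lt_irrefl _ h4

theorem LinkData.ne {p : V → E (d + 1)} {a : V} (D : LinkData p a) : p a ≠ 0 := by
  intro h
  have := D.ha
  rw [h, map_zero] at this
  exact zero_ne_one this

theorem q_zero {p : V → E (d + 1)} (hpos : Pos p) {a : V} (D : LinkData p a) (b : Lk p a) :
    D.q b = 0 ↔ p b.1 = 0 := by
  constructor
  · intro h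
    unfold LinkData.q at h
    have h1 : D.π (p b.1) = 0 := (smul_eq_zero.1 h).resolve_left (inv_ne_zero (D.pos b).ne')
    obtain ⟨c, hc⟩ := D.ker _ h1
    by_contra hb
    obtain ⟨g, hg1, _⟩ := hpos {a, b.1} b.2.2 (by
      intro x hx
      rw [mem_insert, mem_singleton] at hx
      rcases hx with rfl | rfl
      · exact D.ne
      · exact hb)
    have h2 := hg1 a (by simp)
    have h3 := hg1 b.1 (by simp)
    rw [hc, map_smul, h2, smul_eq_mul, mul_one] at h3
    have h4 := D.hb b.1 b.2.1
    rw [hc, h3, one_smul, D.ha] at h4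
    exact lt_irrefl _ h4
  · intro h
    unfold LinkData.q
    rw [h]
    simp

theorem pos_link (hd : 1 ≤ d) {p : V → E (d + 1)} (hP : IsSimplicialPolytope p) (hpos : Pos p)
    {a : V} (D : LinkData p a) : Pos D.q := by
  intro ρ hρ hn
  obtain ⟨g, hg1, hg2⟩ := hpos (up ρ) ((link_face hd hP D ρ).1 hρ) (by
    intro x hx
    rw [mem_up] at hx
    rcases hx with rfl | ⟨c, hc, rfl⟩
    · exact D.ne
    · exact fun h => hn c hc ((q_zero hpos D c).2 h))
  have hga := hg1 a (mem_up.2 (Or.inl rfl))
  obtain ⟨f, hf⟩ := D.factor (g - D.h) (by simp [hga, D.ha])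
  have hq : ∀ b : Lk p a, (1 - D.h (p b.1)) * (f (D.q b) - 1) = g (p b.1) - 1 := by
    intro b
    have h3 := D.key f b
    rw [hf] at h3
    simp only [LinearMap.sub_apply] at h3
    rw [mul_sub, ← h3]
    ring
  refine ⟨f, ?_, ?_⟩
  · intro b hb
    have h3 := hq b
    rw [hg1 b.1 (mem_up_val.2 hb), sub_self] at h3
    have := (mul_eq_zero.1 h3).resolve_left (D.pos b).ne'
    linarith
  · intro b hb
    have h3 := hq b
    have h4 := hg2 b.1 (fun h => hb (mem_up_val.1 h))
    by_contra hcon
    push Not at hcon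
    have := mul_nonneg (D.pos b).le (sub_nonneg.2 hcon)
    linarith

/-- the trace of a set on the link -/
noncomputable def dn {p : V → E d} (a : V) (σ : Finset V) : Finset (Lk p a) :=
  univ.filter (fun b => b.1 ∈ σ)

theorem mem_dn {p : V → E d} {a : V} {σ : Finset V} {b : Lk p a} : b ∈ dn a σ ↔ b.1 ∈ σ := by
  unfold dn
  simp

theorem up_dn {p : V → E d} (hP : IsSimplicialPolytope p) {a : V} {σ : Finset V} (ha : a ∈ σ)
    (hσ : IsFace p σ) : up (dn a σ : Finset (Lk p a)) = σ := by
  ext x
  rw [mem_up]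
  constructor
  · rintro (rfl | ⟨c, hc, rfl⟩)
    · exact ha
    · exact mem_dn.1 hc
  · intro hx
    by_cases hxa : x = a
    · exact Or.inl hxa
    · right
      exact ⟨⟨x, hxa, face_mono hP hσ (by
        intro t ht
        rw [mem_insert, mem_singleton] at ht
        rcases ht with rfl | rfl
        · exact ha
        · exact hx)⟩, mem_dn.2 hx, rfl⟩

theorem card_up {p : V → E d} {a : V} (ρ : Finset (Lk p a)) : (up ρ).card = ρ.card + 1 := by
  unfold up
  rw [card_insert_of_notMem, card_map]
  intro h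
  rw [mem_map] at h
  obtain ⟨b, _, hb⟩ := h
  exact b.2.1 hb

theorem link_face_sub (hd : 1 ≤ d) {p : V → E (d + 1)} (hP : IsSimplicialPolytope p) {a : V}
    (D : LinkData p a) {ρ : Finset (Lk p a)} {σ : Finset V} (hσ : IsFace p σ) (h : up ρ ⊆ σ) :
    IsFace D.q ρ := (link_face hd hP D ρ).2 (face_mono hP hσ h)

theorem face_card_le {p : V → E d} (hP : IsSimplicialPolytope p) {σ : Finset V}
    (h : IsFace p σ) : σ.card ≤ d := by
  by_contra hcon
  push Not at hcon
  obtain ⟨T, hT, hTc⟩ := Finset.exists_subset_card_eq (show d + 1 ≤ σ.card by omega)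
  have hTf := face_mono hP h hT
  have hai := hP.simplicial T hTf
  have hspan : affineSpan ℝ (Set.range (fun a : {x // x ∈ T} => p a)) = ⊤ := by
    apply hai.affineSpan_eq_top_iff_card_eq_finrank_add_one.2
    simp [hTc]
  obtain ⟨hne, f, b, h1, h2⟩ := hTf
  have hf : ∀ x ∈ affineSpan ℝ (Set.range (fun a : {x // x ∈ T} => p a)), f x = b := by
    intro x hx
    refine affineSpan_induction (p := fun x => f x = b) hx ?_ ?_
    · rintro _ ⟨a, rfl⟩
      exact h1 a.1 a.2
    · intro c u v w hu hv hw
      simp only [vsub_eq_sub, vadd_eq_add, map_add, map_smul, map_sub, hu, hv, hw]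
      simp
  apply hne
  ext x
  simp only [mem_univ, iff_true]
  by_contra hx
  have h3 := h2 x hx
  rw [hf (p x) (by rw [hspan]; trivial)] at h3
  exact lt_irrefl _ h3

theorem exists_nonzero {p : V → E d} (hP : IsSimplicialPolytope p) : ∃ a, p a ≠ 0 := by
  by_contra hcon
  push Not at hcon
  have hne : Nonempty V := by
    by_contra hV
    rw [not_nonempty_iff] at hV
    have h3 := hP.spans
    rw [Set.range_eq_empty, AffineSubspace.span_empty] at h3
    exact AffineSubspace.bot_ne_top ℝ _ _ h3
  obtain ⟨a⟩ := hne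
  apply (hP.vertex a).1
  ext x
  simp only [mem_singleton, mem_univ, iff_true]
  exact p_inj hP (by rw [hcon, hcon])

/-- Every face is contained in a facet, which contains the origin only if the face does. -/
theorem ext_face : ∀ (d : ℕ), 1 ≤ d → ∀ (V : Type) [Fintype V] [DecidableEq V] (p : V → E d),
    IsSimplicialPolytope p → Pos p → ∀ σ : Finset V, IsFace p σ →
    ∃ F : Finset V, IsFace p F ∧ σ ⊆ F ∧ F.card = d ∧ ∀ b ∈ F, p b = 0 → b ∈ σ := by
  intro d hd
  induction d, hd using Nat.le_induction with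
  | base =>
    intro V _ _ p hP hpos σ hσ
    have h1 := face_card_le hP hσ
    rcases Nat.eq_zero_or_pos σ.card with h0 | h0
    · rw [card_eq_zero] at h0
      subst h0
      obtain ⟨a, ha⟩ := exists_nonzero hP
      refine ⟨{a}, hP.vertex a, by simp, by simp, ?_⟩
      intro b hb hb0
      rw [mem_singleton] at hb
      subst hb
      exact absurd hb0 ha
    · exact ⟨σ, hσ, subset_rfl, by omega, fun b hb _ => hb⟩
  | succ d hd ih =>
    intro V _ _ p hP hpos
    have key : ∀ σ : Finset V, IsFace p σ → (∃ a ∈ σ, p a ≠ 0) →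
        ∃ F : Finset V, IsFace p F ∧ σ ⊆ F ∧ F.card = d + 1 ∧ ∀ b ∈ F, p b = 0 → b ∈ σ := by
      rintro σ hσ ⟨a, haσ, ha⟩
      obtain ⟨D⟩ := exists_linkData hP hpos ha
      have h1 : IsFace D.q (dn a σ) := by
        rw [link_face hd hP D, up_dn hP haσ hσ]
        exact hσ
      obtain ⟨F, hF, hsub, hcard, hz⟩ := ih (Lk p a) D.q (link_polytope hd hP D)
        (pos_link hd hP hpos D) _ h1
      refine ⟨up F, (link_face hd hP D F).1 hF, ?_, by rw [card_up, hcard], ?_⟩
      · rw [← up_dn hP haσ hσ]
        intro x hx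
        rw [mem_up] at hx ⊢
        rcases hx with rfl | ⟨c, hc, rfl⟩
        · exact Or.inl rfl
        · exact Or.inr ⟨c, hsub hc, rfl⟩
      · intro b hb hb0
        rw [mem_up] at hb
        rcases hb with rfl | ⟨c, hc, rfl⟩
        · exact absurd hb0 ha
        · exact mem_dn.1 (hz c hc ((q_zero hpos D c).2 hb0))
    intro σ hσ
    by_cases hex : ∃ a ∈ σ, p a ≠ 0
    · exact key σ hσ hex
    push Not at hex
    -- add a nonzero vertex
    obtain ⟨a, ha, hface⟩ : ∃ a, p a ≠ 0 ∧ IsFace p (insert a σ) := by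
      rcases σ.eq_empty_or_nonempty with rfl | ⟨u, hu⟩
      · obtain ⟨a, ha⟩ := exists_nonzero hP
        exact ⟨a, ha, by simpa using hP.vertex a⟩
      · have hu0 := hex u hu
        have hσu : σ = {u} := by
          ext x
          rw [mem_singleton]
          constructor
          · intro hx
            exact p_inj hP (by rw [hex x hx, hu0])
          · rintro rfl
            exact hu
        have h2 : ∃ a, u ≠ a ∧ IsFace p {u, a} := by
          by_contra hcon
          push Not at hcon
          have := graph_connected (by omega) hP {u} (by simp) (by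
            intro x hx w hxw hf
            rw [mem_singleton] at hx
            subst hx
            exact absurd hf (hcon w hxw))
          exact (hP.vertex u).1 this
        obtain ⟨a, hua, haf⟩ := h2
        refine ⟨a, fun h => hua (p_inj hP (by rw [hu0, h])), ?_⟩
        rw [hσu, Finset.pair_comm]
        exact haf
    obtain ⟨F, hF, hsub, hcard, hz⟩ := key _ hface ⟨a, mem_insert_self _ _, ha⟩
    refine ⟨F, hF, (subset_insert _ _).trans hsub, hcard, ?_⟩
    intro b hb hb0
    have := hz b hb hb0
    rw [mem_insert] at this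
    rcases this with rfl | h
    · exact absurd hb0 ha
    · exact h

theorem E_one (f : E 1 →ₗ[ℝ] ℝ) (x : E 1) : f x = f (fun _ => 1) * x 0 := by
  have : x = x 0 • (fun _ => (1 : ℝ)) := by
    funext i
    have : i = 0 := Subsingleton.elim _ _
    subst this
    simp
  conv_lhs => rw [this, map_smul, smul_eq_mul, mul_comm]

/-- a ridge is contained in at most two facets -/
theorem no_three : ∀ (d : ℕ), 1 ≤ d → ∀ (V : Type) [Fintype V] [DecidableEq V] (p : V → E d),
    IsSimplicialPolytope p → Pos p → ∀ (τ : Finset V), τ.card + 1 = d → (∀ a ∈ τ, p a ≠ 0) →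
    ∀ s1 s2 s3 : V, s1 ≠ s2 → s1 ≠ s3 → s2 ≠ s3 → s1 ∉ τ → s2 ∉ τ → s3 ∉ τ →
    IsFace p (insert s1 τ) → IsFace p (insert s2 τ) → IsFace p (insert s3 τ) → False := by
  intro d hd
  induction d, hd using Nat.le_induction with
  | base =>
    intro V _ _ p hP hpos τ hτ hn s1 s2 s3 h12 h13 h23 _ _ _ _ _ _
    obtain ⟨_, f1, b1, a1, c1⟩ := hP.vertex s1
    obtain ⟨_, f2, b2, a2, c2⟩ := hP.vertex s2
    obtain ⟨_, f3, b3, a3, c3⟩ := hP.vertex s3
    have A1 := a1 s1 (by simp)
    have A2 := a2 s2 (by simp)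
    have A3 := a3 s3 (by simp)
    have B1 := c1 s2 (by simpa using h12.symm)
    have C1 := c1 s3 (by simpa using h13.symm)
    have B2 := c2 s1 (by simpa using h12)
    have C2 := c2 s3 (by simpa using h23.symm)
    have B3 := c3 s1 (by simpa using h13)
    have C3 := c3 s2 (by simpa using h23)
    rw [← A1, E_one f1 (p s1)] at B1 C1
    rw [← A2, E_one f2 (p s2)] at B2 C2
    rw [← A3, E_one f3 (p s3)] at B3 C3
    rw [E_one f1] at B1 C1
    rw [E_one f2] at B2 C2
    rw [E_one f3] at B3 C3
    set m1 := f1 (fun _ => 1)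
    set m2 := f2 (fun _ => 1)
    set m3 := f3 (fun _ => 1)
    set x := p s1 0
    set y := p s2 0
    set z := p s3 0
    have ext : ∀ m u v w : ℝ, m * v < m * u → m * w < m * u →
        (v < u ∧ w < u) ∨ (u < v ∧ u < w) := by
      intro m u v w h1 h2
      rcases lt_trichotomy m 0 with hm | hm | hm
      · right
        exact ⟨lt_of_mul_lt_mul_of_nonpos_left h1 hm.le, lt_of_mul_lt_mul_of_nonpos_left h2 hm.le⟩
      · rw [hm] at h1; simp at h1
      · left
        exact ⟨lt_of_mul_lt_mul_of_nonneg_left h1 hm.le, lt_of_mul_lt_mul_of_nonneg_left h2 hm.le⟩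
    rcases ext m1 x y z B1 C1 with h1 | h1 <;> rcases ext m2 y x z B2 C2 with h2 | h2 <;>
      rcases ext m3 z x y B3 C3 with h3 | h3 <;> linarith
  | succ d hd ih =>
    intro V _ _ p hP hpos τ hτ hn s1 s2 s3 h12 h13 h23 n1 n2 n3 f1 f2 f3
    obtain ⟨a, ha⟩ : τ.Nonempty := by
      rw [← card_pos]
      omega
    obtain ⟨D⟩ := exists_linkData hP hpos (hn a ha)
    have hmem : ∀ s, s ∉ τ → IsFace p (insert s τ) → s ≠ a ∧ IsFace p {a, s} := by
      intro s hs hf
      refine ⟨fun h => hs (h ▸ ha), face_mono hP hf ?_⟩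
      intro t ht
      rw [mem_insert, mem_singleton] at ht
      rcases ht with rfl | rfl
      · exact mem_insert_of_mem ha
      · exact mem_insert_self _ _
    have hτf : IsFace p τ := face_mono hP f1 (subset_insert _ _)
    have hup := up_dn hP ha hτf
    have hface : ∀ s (hs : s ∉ τ) (hf : IsFace p (insert s τ)),
        IsFace D.q (insert (⟨s, hmem s hs hf⟩ : Lk p a) (dn a τ)) := by
      intro s hs hf
      apply link_face_sub hd hP D hf
      intro x hx
      rw [mem_up] at hx
      rcases hx with rfl | ⟨c, hc, rfl⟩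
      · exact mem_insert_of_mem ha
      · rw [mem_insert] at hc
        rcases hc with rfl | hc
        · exact mem_insert_self _ _
        · exact mem_insert_of_mem (mem_dn.1 hc)
    refine ih (Lk p a) D.q (link_polytope hd hP D) (pos_link hd hP hpos D) (dn a τ) ?_ ?_
      ⟨s1, hmem s1 n1 f1⟩ ⟨s2, hmem s2 n2 f2⟩ ⟨s3, hmem s3 n3 f3⟩
      (fun h => h12 (congrArg Subtype.val h)) (fun h => h13 (congrArg Subtype.val h))
      (fun h => h23 (congrArg Subtype.val h)) (fun h => n1 (mem_dn.1 h))
      (fun h => n2 (mem_dn.1 h)) (fun h => n3 (mem_dn.1 h)) (hface s1 n1 f1) (hface s2 n2 f2)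
      (hface s3 n3 f3)
    · have := card_up (dn a τ : Finset (Lk p a))
      rw [hup] at this
      omega
    · intro b hb
      rw [Ne, q_zero hpos D]
      exact hn b.1 (mem_dn.1 hb)

end Pool.Agent.K9h62.St
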