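import Pool.Agent.K9h62.St.Trans

/-!
# Connectivity away from the apex, connectivity of links, gluing of linear functions
-/

namespace Pool.Agent.K9h62.St

open MvPolynomial Finset
open Pool.Agent.TH47.Lev (L L_apply dl L_dl)

variable {V : Type} [Fintype V] [DecidableEq V] {d : ℕ}

/-- the difference of the maxima over `S` and over `T` -/
noncomputable def ga_D (p : V → E d) (S T : Finset V) (hS : S.Nonempty) (hT : T.Nonempty)
    (h : E d →ₗ[ℝ] ℝ) : ℝ := S.sup' hS (fun a => h (p a)) - T.sup' hT (fun a => h (p a))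

lemma ga_ne {p : V → E d} (hP : IsSimplicialPolytope p) {u : V} (hu : p u = 0) (S T : Finset V)
    (hS : S.Nonempty) (hT : T.Nonempty) (hST : ∀ x, x ≠ u → x ∈ S ∨ x ∈ T)
    (_hdisj : ∀ x ∈ S, x ∉ T) (hcl : ∀ a ∈ S, ∀ b ∈ T, ¬ IsFace p {a, b}) (h : E d →ₗ[ℝ] ℝ)
    (h0 : ∃ a, 0 < h (p a)) : ga_D p S T hS hT h ≠ 0 := by
  intro hD
  unfold ga_D at hD
  obtain ⟨a, ha, ha2⟩ := Finset.exists_mem_eq_sup' hS (fun a => h (p a))
  obtain ⟨c, hc, hc2⟩ := Finset.exists_mem_eq_sup' hT (fun a => h (p a))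
  have hac : h (p a) = h (p c) := by linarith
  have hle' : ∀ x, x ≠ u → h (p x) ≤ h (p a) := by
    intro x hxu
    rcases hST x hxu with hx | hx
    · rw [← ha2]
      exact Finset.le_sup' (fun a => h (p a)) hx
    · rw [hac, ← hc2]
      exact Finset.le_sup' (fun a => h (p a)) hx
  obtain ⟨e, he⟩ := h0
  have heu : e ≠ u := by
    rintro rfl
    rw [hu, map_zero] at he
    exact lt_irrefl _ he
  have hle : ∀ x, h (p x) ≤ h (p a) := by
    intro x
    by_cases hxu : x = u
    · rw [hxu, hu, map_zero]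
      exact he.le.trans (hle' e heu)
    · exact hle' x hxu
  have hne : h ≠ 0 := by
    rintro rfl
    simp at he
  exact hcl a ha c hc (pair_of_max hP h hne hle hac.symm)

lemma ga_seg {p : V → E d} (hP : IsSimplicialPolytope p) {u : V} (hu : p u = 0) (S T : Finset V)
    (hS : S.Nonempty) (hT : T.Nonempty) (hST : ∀ x, x ≠ u → x ∈ S ∨ x ∈ T)
    (hdisj : ∀ x ∈ S, x ∉ T) (hcl : ∀ a ∈ S, ∀ b ∈ T, ¬ IsFace p {a, b}) (f k : E d →ₗ[ℝ] ℝ)
    (hseg : ∀ s : ℝ, 0 ≤ s → s ≤ 1 → ∃ a, 0 < ((1 - s) • f + s • k) (p a))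
    (hf : 0 < ga_D p S T hS hT f) : 0 < ga_D p S T hS hT k := by
  by_contra hcon
  push Not at hcon
  set F : ℝ → ℝ := fun s => ga_D p S T hS hT ((1 - s) • f + s • k) with hF
  have hcont : Continuous F := by
    rw [hF]
    unfold ga_D
    refine Continuous.sub ?_ ?_
    · refine Continuous.finset_sup'_apply hS (fun a _ => ?_)
      simp only [LinearMap.add_apply, LinearMap.smul_apply, smul_eq_mul]
      fun_prop
    · refine Continuous.finset_sup'_apply hT (fun a _ => ?_)
      simp only [LinearMap.add_apply, LinearMap.smul_apply, smul_eq_mul]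
      fun_prop
  have hF0 : F 0 = ga_D p S T hS hT f := by simp [hF]
  have hF1 : F 1 = ga_D p S T hS hT k := by simp [hF]
  have hz : (0:ℝ) ∈ Set.Icc (F 1) (F 0) := by
    rw [hF0, hF1]
    exact ⟨hcon, hf.le⟩
  obtain ⟨s, hs, hs0⟩ := intermediate_value_Icc' (zero_le_one) hcont.continuousOn hz
  exact ga_ne hP hu S T hS hT hST hdisj hcl _ (hseg s hs.1 hs.2) hs0

/-- connectivity of the graph without the apex -/
theorem apex_connected {p : V → E d} (hP : IsSimplicialPolytope p) {u : V}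
    (hu : p u = 0) (S : Finset V) (hS : S.Nonempty) (huS : u ∉ S)
    (hcl : ∀ a ∈ S, ∀ b, b ≠ u → a ≠ b → IsFace p {a, b} → b ∈ S) (x : V) (hx : x ≠ u) :
    x ∈ S := by
  by_contra hxS
  set T : Finset V := univ.filter (fun b => b ≠ u ∧ b ∉ S) with hTdef
  have hT : T.Nonempty := ⟨x, by simp [hTdef, hx, hxS]⟩
  have hST : ∀ x, x ≠ u → x ∈ S ∨ x ∈ T := by
    intro x hx
    by_cases h : x ∈ S
    · exact Or.inl h
    · exact Or.inr (by simp [hTdef, hx, h])
  have hdisj : ∀ x ∈ S, x ∉ T := by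
    intro x hx h
    exact (mem_filter.1 h).2.2 hx
  have hcl' : ∀ a ∈ S, ∀ b ∈ T, ¬ IsFace p {a, b} := by
    intro a ha b hb hf
    have hb' := (mem_filter.1 hb).2
    exact hb'.2 (hcl a ha b hb'.1 (fun h => hb'.2 (h ▸ ha)) hf)
  obtain ⟨a, ha⟩ := hS
  obtain ⟨c, hc⟩ := hT
  have hau : a ≠ u := fun h => huS (h ▸ ha)
  have hcu : c ≠ u := (mem_filter.1 hc).2.1
  have hS : S.Nonempty := ⟨a, ha⟩
  have hT : T.Nonempty := ⟨c, hc⟩
  have hnz : ∀ b, b ≠ u → p b ≠ 0 := fun b hb h => hb (p_inj hP (by rw [h, hu]))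
  obtain ⟨f, hf1, hf2⟩ := pos_of_apex hu {a} (hP.vertex a) (by simpa using hnz a hau)
  obtain ⟨g, hg1, hg2⟩ := pos_of_apex hu {c} (hP.vertex c) (by simpa using hnz c hcu)
  have hf1 := hf1 a (by simp)
  have hg1 := hg1 c (by simp)
  obtain ⟨l, hl⟩ := vertex_functional hP hu
  have hla := hl a hau
  have hlc := hl c hcu
  obtain ⟨N, hN⟩ : ∃ N : ℝ, 0 ≤ N ∧ -(g (p a)) < N * l (p a) := by
    refine ⟨(|g (p a)| + 1) / l (p a), by positivity, ?_⟩
    rw [div_mul_cancel₀ _ hla.ne']
    have := neg_abs_le (g (p a))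
    have := neg_le_abs (g (p a))
    linarith
  have hDf : 0 < ga_D p S T hS hT f := by
    unfold ga_D
    have h1 : f (p a) ≤ S.sup' hS (fun a => f (p a)) := Finset.le_sup' (fun a => f (p a)) ha
    have h2 : T.sup' hT (fun a => f (p a)) < f (p a) := by
      rw [Finset.sup'_lt_iff]
      intro x hx
      rw [hf1]
      refine hf2 x ?_
      rw [Finset.mem_singleton]
      rintro rfl
      exact hdisj x ha hx
    linarith
  have hDg : ga_D p S T hS hT g < 0 := by
    unfold ga_D
    have h1 : g (p c) ≤ T.sup' hT (fun a => g (p a)) := Finset.le_sup' (fun a => g (p a)) hc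
    have h2 : S.sup' hS (fun a => g (p a)) < g (p c) := by
      rw [Finset.sup'_lt_iff]
      intro x hx
      rw [hg1]
      refine hg2 x ?_
      rw [Finset.mem_singleton]
      rintro rfl
      exact hdisj x hx hc
    linarith
  have s1 := ga_seg hP hu S T hS hT hST hdisj hcl' f (f + N • l) (by
    intro s hs0 hs1
    refine ⟨a, ?_⟩
    simp only [LinearMap.add_apply, LinearMap.smul_apply, smul_eq_mul, hf1]
    have : 0 ≤ s * (N * l (p a)) := mul_nonneg hs0 (mul_nonneg hN.1 hla.le)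
    nlinarith) hDf
  have s2 := ga_seg hP hu S T hS hT hST hdisj hcl' (f + N • l) (g + N • l) (by
    intro s hs0 hs1
    refine ⟨a, ?_⟩
    simp only [LinearMap.add_apply, LinearMap.smul_apply, smul_eq_mul, hf1]
    have h3 : 0 ≤ N * l (p a) := mul_nonneg hN.1 hla.le
    rcases eq_or_lt_of_le hs0 with h | h
    · rw [← h]; simp; linarith
    · have h4 : 0 < s * (g (p a) + N * l (p a)) := mul_pos h (by linarith [hN.2])
      nlinarith [mul_nonneg (sub_nonneg.2 hs1) h3]) s1
  have s3 := ga_seg hP hu S T hS hT hST hdisj hcl' (g + N • l) g (by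
    intro s hs0 hs1
    refine ⟨c, ?_⟩
    simp only [LinearMap.add_apply, LinearMap.smul_apply, smul_eq_mul, hg1]
    have : 0 ≤ (1 - s) * (N * l (p c)) := mul_nonneg (by linarith) (mul_nonneg hN.1 hlc.le)
    nlinarith) s2
  linarith

/-- connectivity of the link of a vertex -/
theorem link_connected (hd : 2 ≤ d) {p : V → E (d + 1)} (hP : IsSimplicialPolytope p) (u : V)
    (S : V → Prop) (a0 : V) (ha0 : a0 ≠ u) (haf : IsFace p {u, a0}) (hS0 : S a0)
    (hcl : ∀ a b, S a → a ≠ u → b ≠ u → a ≠ b → IsFace p {u, a, b} → S b) (b : V) (hb : b ≠ u)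
    (hbf : IsFace p {u, b}) : S b := by
  classical
  set t := p a0 with ht
  have hP' := isSimplicialPolytope_translate t hP
  have hf' := fun σ => isFace_translate (p := p) t σ
  set p' : V → E (d + 1) := fun a => p a - t with hp'
  have ha0' : p' a0 = 0 := by simp [hp', ht]
  have hpos := pos_of_apex ha0'
  have hu0 : p' u ≠ 0 := fun h => ha0 (p_inj hP' (by rw [h, ha0']))
  obtain ⟨D⟩ := exists_linkData hP' hpos hu0
  have hd1 : 1 ≤ d := by omega
  have hcon := graph_connected hd (link_polytope hd1 hP' D)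
    (univ.filter (fun b : Lk p' u => S b.1)) ⟨⟨a0, ha0, (hf' _).2 haf⟩, by simp [hS0]⟩ (by
      intro x hx w hxw hf
      rw [mem_filter] at hx ⊢
      refine ⟨mem_univ _, hcl x.1 w.1 hx.2 x.2.1 w.2.1 (fun h => hxw (Subtype.ext h)) ?_⟩
      have h1 := (hf' _).1 ((link_face hd1 hP' D _).1 hf)
      convert h1 using 1
      ext y
      rw [mem_up]
      simp only [mem_insert, mem_singleton]
      constructor
      · rintro (h | h | h)
        · exact Or.inl h
        · exact Or.inr ⟨x, Or.inl rfl, h.symm⟩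
        · exact Or.inr ⟨w, Or.inr rfl, h.symm⟩
      · rintro (h | ⟨c, rfl | rfl, h⟩)
        · exact Or.inl h
        · exact Or.inr (Or.inl h.symm)
        · exact Or.inr (Or.inr h.symm))
  have : (⟨b, hb, (hf' _).2 hbf⟩ : Lk p' u) ∈ univ.filter (fun b : Lk p' u => S b.1) := by
    rw [hcon]; exact mem_univ _
  exact (mem_filter.1 this).2

/-- vertices of a face without the origin are linearly independent -/
theorem lin_indep {p : V → E d} (hP : IsSimplicialPolytope p) (hpos : Pos p)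
    {σ : Finset V} (h : IsFace p σ) (hn : ∀ a ∈ σ, p a ≠ 0) :
    LinearIndependent ℝ (fun a : {x // x ∈ σ} => p a.1) := by
  obtain ⟨l, hl1, _⟩ := hpos σ h hn
  rw [Fintype.linearIndependent_iff]
  intro g hg i
  have h1 := (aff_iff p σ).1 (hP.simplicial σ h) (fun a => if ha : a ∈ σ then g ⟨a, ha⟩ else 0)
    (fun a ha => by simp [ha]) (by
      have h2 := congrArg l hg
      rw [map_sum, map_zero] at h2
      have h3 : ∑ a : {x // x ∈ σ}, g a = 0 := by
        rw [← h2]
        refine Finset.sum_congr rfl (fun a _ => ?_)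
        rw [map_smul, hl1 a.1 a.2]
        simp
      refine (Finset.sum_subset (Finset.subset_univ σ) (fun x _ hx => by simp [hx])).symm.trans ?_
      rw [← Finset.sum_coe_sort σ]
      refine Eq.trans (Finset.sum_congr rfl (fun a _ => ?_)) h3
      simp) (by
      rw [← hg, ← Finset.sum_subset (Finset.subset_univ σ), ← Finset.sum_coe_sort σ]
      · refine Finset.sum_congr rfl (fun a _ => ?_)
        simp
      · intro x _ hx
        simp [hx])
  have h2 := congrFun h1 i.1
  simpa using h2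

theorem interp {p : V → E d} (hP : IsSimplicialPolytope p) (hpos : Pos p)
    {σ : Finset V} (h : IsFace p σ) (hn : ∀ a ∈ σ, p a ≠ 0) (f : V → ℝ) : Lin p f σ := by
  obtain ⟨l, hl⟩ := exists_functional (lin_indep hP hpos h hn) (fun a => f a.1)
  exact ⟨l, fun a ha => (hl ⟨a, ha⟩).symm⟩

theorem facet_unique {p : V → E d} (hP : IsSimplicialPolytope p) (hpos : Pos p)
    {F : Finset V} (h : IsFace p F) (hn : ∀ a ∈ F, p a ≠ 0) (hc : F.card = d)
    {l l' : E d →ₗ[ℝ] ℝ} (hl : ∀ a ∈ F, l (p a) = l' (p a)) : l = l' := by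
  have hli := lin_indep hP hpos h hn
  have htop : Submodule.span ℝ (Set.range (fun a : {x // x ∈ F} => p a.1)) = ⊤ := by
    apply hli.span_eq_top_of_card_eq_finrank'
    simp [hc]
  apply LinearMap.ext_on_range htop
  intro a
  exact hl a.1 a.2

end Pool.Agent.K9h62.St
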