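import Pool.Agent.K9h62.St.Conn

/-!
# Links of vertices of a simplicial polytope
-/

namespace Pool.Agent.K9h62.St

open MvPolynomial Finset
open Pool.Agent.TH47.Lev (L L_apply dl L_dl)

variable {V : Type} [Fintype V] [DecidableEq V] {d : ℕ}

theorem aff_iff (p : V → E d) (σ : Finset V) :
    AffineIndependent ℝ (fun a : {x // x ∈ σ} => p a) ↔
      ∀ c : V → ℝ, (∀ a, a ∉ σ → c a = 0) → ∑ a, c a = 0 → ∑ a, c a • p a = 0 → c = 0 := by
  rw [affineIndependent_iff]
  constructor
  · intro h c hc h1 h2
    have e1 : ∑ a : {x // x ∈ σ}, c a.1 = 0 := by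
      rw [← h1, ← Finset.sum_subset (Finset.subset_univ σ), ← Finset.sum_coe_sort σ]
      intro x _ hx
      exact hc x hx
    have e2 : ∑ a : {x // x ∈ σ}, c a.1 • p a.1 = 0 := by
      rw [← h2, ← Finset.sum_subset (Finset.subset_univ σ), ← Finset.sum_coe_sort σ]
      intro x _ hx
      rw [hc x hx, zero_smul]
    have h3 := h univ (fun a => c a.1) e1 e2
    funext a
    by_cases ha : a ∈ σ
    · exact h3 ⟨a, ha⟩ (mem_univ _)
    · exact hc a ha
  · intro h s w h1 h2 e he
    set c : V → ℝ := fun a => if ha : a ∈ σ then (if (⟨a, ha⟩ : {x // x ∈ σ}) ∈ s then w ⟨a, ha⟩ else 0)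
      else 0 with hc
    have hcv : ∀ a : {x // x ∈ σ}, c a.1 = if a ∈ s then w a else 0 := by
      intro a
      simp [hc, a.2]
    have e1 : ∑ a, c a = 0 := by
      rw [← Finset.sum_subset (Finset.subset_univ σ), ← Finset.sum_coe_sort σ]
      · simp only [hcv]
        rw [Finset.sum_ite_mem, Finset.univ_inter]
        exact h1
      · intro x _ hx
        simp [hc, hx]
    have e2 : ∑ a, c a • p a = 0 := by
      rw [← Finset.sum_subset (Finset.subset_univ σ), ← Finset.sum_coe_sort σ]
      · simp only [hcv, ite_smul, zero_smul]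
        rw [Finset.sum_ite_mem, Finset.univ_inter]
        exact h2
      · intro x _ hx
        simp [hc, hx]
    have h3 := h c (fun a ha => by simp [hc, ha]) e1 e2
    have h4 := hcv e
    rw [h3, if_pos he] at h4
    simpa using h4.symm

omit [Fintype V] [DecidableEq V] in
theorem exists_not_span (hd : 2 ≤ d) (f : E d →ₗ[ℝ] ℝ) : ∃ k : E d →ₗ[ℝ] ℝ, k ∉ Submodule.span ℝ {f} := by
  have hdim : Module.finrank ℝ (E d →ₗ[ℝ] ℝ) = d := by
    rw [Module.finrank_linearMap]
    simp
  by_contra hall
  push Not at hall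
  have htop : Submodule.span ℝ {f} = ⊤ := by
    rw [eq_top_iff]
    intro x _
    exact hall x
  have h1 := finrank_span_le_card (R := ℝ) ({f} : Set (E d →ₗ[ℝ] ℝ))
  rw [htop, finrank_top, hdim] at h1
  simp at h1
  omega

/-- the maximisers of a nonconstant functional form a face -/
theorem face_of_max {p : V → E d} (hP : IsSimplicialPolytope p) (F : E d →ₗ[ℝ] ℝ) (hF : F ≠ 0)
    {a : V} (hle : ∀ b, F (p b) ≤ F (p a)) :
    IsFace p (univ.filter (fun x => F (p x) = F (p a))) := by
  refine ⟨?_, F, F (p a), ?_, ?_⟩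
  · intro hu
    refine hF (gc_const hP.spans F (F (p a)) (fun x => ?_))
    have : x ∈ univ.filter (fun x => F (p x) = F (p a)) := by rw [hu]; exact Finset.mem_univ x
    exact (Finset.mem_filter.1 this).2
  · intro x hx
    exact (Finset.mem_filter.1 hx).2
  · intro x hx
    refine lt_of_le_of_ne (hle x) (fun he => hx ?_)
    exact Finset.mem_filter.2 ⟨Finset.mem_univ x, he⟩

theorem pair_of_max {p : V → E d} (hP : IsSimplicialPolytope p) (F : E d →ₗ[ℝ] ℝ) (hF : F ≠ 0)
    {a c : V} (hle : ∀ b, F (p b) ≤ F (p a)) (hc : F (p c) = F (p a)) : IsFace p {a, c} := by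
  refine face_mono hP (face_of_max hP F hF hle) ?_
  intro x hx
  rw [Finset.mem_insert, Finset.mem_singleton] at hx
  rcases hx with rfl | rfl
  · exact Finset.mem_filter.2 ⟨Finset.mem_univ _, rfl⟩
  · exact Finset.mem_filter.2 ⟨Finset.mem_univ _, hc⟩

theorem exists_nbr (hd : 1 ≤ d) {p : V → E (d + 1)} (hP : IsSimplicialPolytope p) {a : V}
    (D : LinkData p a) : ∃ b, b ≠ a ∧ IsFace p {a, b} := by
  obtain ⟨k, hk⟩ := exists_not_span (by omega) D.h
  have hne : ((univ : Finset V).erase a).Nonempty := by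
    rw [Finset.nonempty_iff_ne_empty]
    intro h
    apply (hP.vertex a).1
    ext x
    simp only [Finset.mem_singleton, Finset.mem_univ, iff_true]
    by_contra hx
    have : x ∈ (univ : Finset V).erase a := Finset.mem_erase.2 ⟨hx, mem_univ x⟩
    rw [h] at this
    simp at this
  obtain ⟨c, hc, hmax⟩ := Finset.exists_max_image _
    (fun b => (k (p b) - k (p a)) / (1 - D.h (p b))) hne
  have hca : c ≠ a := (Finset.mem_erase.1 hc).1
  set μ := (k (p c) - k (p a)) / (1 - D.h (p c)) with hμ
  have hpos : ∀ b, b ≠ a → 0 < 1 - D.h (p b) := fun b hb => by have := D.hb b hb; linarith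
  have h1 : ∀ b, (k + μ • D.h) (p b) ≤ (k + μ • D.h) (p a) := by
    intro b
    simp only [LinearMap.add_apply, LinearMap.smul_apply, smul_eq_mul, D.ha]
    by_cases hb : b = a
    · rw [hb, D.ha]
    · have h2 := hmax b (Finset.mem_erase.2 ⟨hb, mem_univ b⟩)
      rw [div_le_iff₀ (hpos b hb)] at h2
      nlinarith
  refine ⟨c, hca, pair_of_max hP (k + μ • D.h) ?_ h1 ?_⟩
  · intro h
    apply hk
    rw [Submodule.mem_span_singleton]
    exact ⟨-μ, by rw [neg_smul]; exact (eq_neg_of_add_eq_zero_left h).symm⟩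
  · simp only [LinearMap.add_apply, LinearMap.smul_apply, smul_eq_mul, D.ha]
    have h2 : μ * (1 - D.h (p c)) = k (p c) - k (p a) := by
      rw [hμ]; exact div_mul_cancel₀ _ (hpos c hca).ne'
    linarith

/-- a local maximum is a global maximum -/
theorem local_max (hd : 1 ≤ d) {p : V → E (d + 1)} (hP : IsSimplicialPolytope p) {a : V}
    (D : LinkData p a) (g : E (d + 1) →ₗ[ℝ] ℝ) (hg : ∀ b, b ≠ a → IsFace p {a, b} →
      g (p b) ≤ g (p a)) (b : V) : g (p b) ≤ g (p a) := by
  by_contra hb
  push Not at hb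
  have hne : ((univ : Finset V).filter (fun b => g (p a) < g (p b))).Nonempty :=
    ⟨b, Finset.mem_filter.2 ⟨mem_univ b, hb⟩⟩
  obtain ⟨c, hc, hmin⟩ := Finset.exists_min_image _
    (fun b => (1 - D.h (p b)) / (g (p b) - g (p a))) hne
  have hc' := (Finset.mem_filter.1 hc).2
  have hca : c ≠ a := by rintro rfl; exact lt_irrefl _ hc'
  have hpos : ∀ b, b ≠ a → 0 < 1 - D.h (p b) := fun b hb => by have := D.hb b hb; linarith
  set s := (1 - D.h (p c)) / (g (p c) - g (p a)) with hs
  have hs0 : 0 < s := div_pos (hpos c hca) (by linarith)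
  have h1 : ∀ b, (D.h + s • g) (p b) ≤ (D.h + s • g) (p a) := by
    intro b
    simp only [LinearMap.add_apply, LinearMap.smul_apply, smul_eq_mul, D.ha]
    by_cases hb : b = a
    · rw [hb, D.ha]
    have h3 := hpos b hb
    by_cases hb' : g (p a) < g (p b)
    · have h2 := hmin b (Finset.mem_filter.2 ⟨mem_univ b, hb'⟩)
      rw [le_div_iff₀ (by linarith)] at h2
      nlinarith
    · push Not at hb'
      nlinarith
  have h2 : (D.h + s • g) (p c) = (D.h + s • g) (p a) := by
    simp only [LinearMap.add_apply, LinearMap.smul_apply, smul_eq_mul, D.ha]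
    have h3 : s * (g (p c) - g (p a)) = 1 - D.h (p c) := by
      rw [hs]; exact div_mul_cancel₀ _ (by linarith)
    linarith
  by_cases hF : D.h + s • g = 0
  · obtain ⟨e, hea, he⟩ := exists_nbr hd hP D
    have h3 := hg e hea he
    have h4 := congrArg (fun F : E (d + 1) →ₗ[ℝ] ℝ => F (p e)) hF
    have h5 := congrArg (fun F : E (d + 1) →ₗ[ℝ] ℝ => F (p a)) hF
    simp only [LinearMap.add_apply, LinearMap.smul_apply, smul_eq_mul, D.ha,
      LinearMap.zero_apply] at h4 h5
    have h6 := hpos e hea
    nlinarith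
  · exact absurd (hg c hca (pair_of_max hP _ hF h1 h2)) (by linarith)

theorem exists_linkData {p : V → E (d + 1)} (hP : IsSimplicialPolytope p) (hpos : Pos p) {a : V}
    (ha : p a ≠ 0) : Nonempty (LinkData p a) := by
  obtain ⟨h, h1, h2⟩ := hpos {a} (hP.vertex a) (by simpa using ha)
  have hfin : Module.finrank ℝ (E (d + 1) ⧸ Submodule.span ℝ {p a}) = Module.finrank ℝ (E d) := by
    have h3 := Submodule.finrank_quotient_add_finrank (Submodule.span ℝ {p a})
    rw [finrank_span_singleton ha] at h3
    simp only [Module.finrank_fintype_fun_eq_card, Fintype.card_fin] at h3 ⊢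
    omega
  let e := LinearEquiv.ofFinrankEq _ _ hfin
  refine ⟨⟨h, e.toLinearMap.comp (Submodule.mkQ _), h1 a (by simp), fun b hb => h2 b (by simpa using hb),
    ?_, ?_, ?_⟩⟩
  · intro x
    obtain ⟨y, hy⟩ := Submodule.mkQ_surjective (Submodule.span ℝ {p a}) (e.symm x)
    exact ⟨y, by simp [hy]⟩
  · intro x hx
    simp only [LinearMap.coe_comp, LinearEquiv.coe_coe, Function.comp_apply,
      EmbeddingLike.map_eq_zero_iff, Submodule.mkQ_apply, Submodule.Quotient.mk_eq_zero] at hx
    obtain ⟨c, hc⟩ := Submodule.mem_span_singleton.1 hx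
    exact ⟨c, hc.symm⟩
  · simp only [LinearMap.coe_comp, LinearEquiv.coe_coe, Function.comp_apply,
      EmbeddingLike.map_eq_zero_iff, Submodule.mkQ_apply, Submodule.Quotient.mk_eq_zero]
    exact Submodule.mem_span_singleton_self _

/-- functionals vanishing at `p a` factor through the projection -/
theorem LinkData.factor {p : V → E (d + 1)} {a : V} (D : LinkData p a) (g : E (d + 1) →ₗ[ℝ] ℝ)
    (hg : g (p a) = 0) : ∃ f : E d →ₗ[ℝ] ℝ, ∀ x, f (D.π x) = g x := by
  obtain ⟨s, hs⟩ := D.π.exists_rightInverse_of_surjective (LinearMap.range_eq_top.2 D.surj)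
  refine ⟨g.comp s, fun x => ?_⟩
  have h1 : D.π (x - s (D.π x)) = 0 := by
    have h2 := LinearMap.congr_fun hs (D.π x)
    simp only [LinearMap.coe_comp, Function.comp_apply, LinearMap.id_coe, id_eq] at h2
    rw [map_sub, h2, sub_self]
  obtain ⟨c, hc⟩ := D.ker _ h1
  have h3 : g (x - s (D.π x)) = 0 := by rw [hc, map_smul, hg, smul_zero]
  rw [map_sub] at h3
  simp only [LinearMap.coe_comp, Function.comp_apply]
  linarith

theorem LinkData.pos {p : V → E (d + 1)} {a : V} (D : LinkData p a) (b : Lk p a) :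
    0 < 1 - D.h (p b.1) := by
  have := D.hb b.1 b.2.1
  linarith

theorem LinkData.key {p : V → E (d + 1)} {a : V} (D : LinkData p a) (f : E d →ₗ[ℝ] ℝ)
    (b : Lk p a) : f (D.π (p b.1)) = (1 - D.h (p b.1)) * f (D.q b) := by
  unfold LinkData.q
  rw [map_smul, smul_eq_mul, mul_inv_cancel_left₀ (D.pos b).ne']

/-- the functional of the polytope given by an affine function of the link -/
theorem LinkData.key2 {p : V → E (d + 1)} {a : V} (D : LinkData p a) (f : E d →ₗ[ℝ] ℝ) (c : ℝ)
    (b : Lk p a) : (f.comp D.π + c • D.h) (p b.1) - c = (1 - D.h (p b.1)) * (f (D.q b) - c) := by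
  have := D.key f b
  simp only [LinearMap.add_apply, LinearMap.coe_comp, Function.comp_apply, LinearMap.smul_apply,
    smul_eq_mul]
  rw [this]
  ring

theorem LinkData.key3 {p : V → E (d + 1)} {a : V} (D : LinkData p a) (f : E d →ₗ[ℝ] ℝ) (c : ℝ) :
    (f.comp D.π + c • D.h) (p a) = c := by
  simp [D.ka, D.ha]

theorem mem_up {p : V → E d} {a : V} {ρ : Finset (Lk p a)} {b : V} :
    b ∈ up ρ ↔ b = a ∨ ∃ c ∈ ρ, c.1 = b := by
  unfold up
  simp

theorem mem_up_val {p : V → E d} {a : V} {ρ : Finset (Lk p a)} {b : Lk p a} :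
    b.1 ∈ up ρ ↔ b ∈ ρ := by
  rw [mem_up]
  constructor
  · rintro (h | ⟨c, hc, h⟩)
    · exact absurd h b.2.1
    · rwa [← Subtype.ext h]
  · intro h
    exact Or.inr ⟨b, h, rfl⟩

/-- a functional constant on the closed star is zero -/
theorem const_star (hd : 1 ≤ d) {p : V → E (d + 1)} (hP : IsSimplicialPolytope p) {a : V}
    (D : LinkData p a) (g : E (d + 1) →ₗ[ℝ] ℝ) (hg : ∀ b, b ≠ a → IsFace p {a, b} →
      g (p b) = g (p a)) : g = 0 := by
  apply gc_const hP.spans g (g (p a))
  intro b
  apply le_antisymm (local_max hd hP D g (fun b h1 h2 => (hg b h1 h2).le) b)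
  have := local_max hd hP D (-g) (fun b h1 h2 => by
    rw [LinearMap.neg_apply, LinearMap.neg_apply, hg b h1 h2]) b
  rw [LinearMap.neg_apply, LinearMap.neg_apply] at this
  linarith

theorem link_face (hd : 1 ≤ d) {p : V → E (d + 1)} (hP : IsSimplicialPolytope p) {a : V}
    (D : LinkData p a) (ρ : Finset (Lk p a)) : IsFace D.q ρ ↔ IsFace p (up ρ) := by
  constructor
  · rintro ⟨hρ, f, c, h1, h2⟩
    set G := f.comp D.π + c • D.h with hG
    have hGa : G (p a) = c := D.key3 f c
    have hGρ : ∀ b : Lk p a, b ∈ ρ → G (p b.1) = c := by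
      intro b hb
      have := D.key2 f c b
      rw [h1 b hb, sub_self, mul_zero] at this
      linarith
    have hGn : ∀ b : Lk p a, b ∉ ρ → G (p b.1) < c := by
      intro b hb
      have h3 := D.key2 f c b
      have h4 := mul_neg_of_pos_of_neg (D.pos b) (sub_neg.2 (h2 b hb))
      rw [← h3] at h4
      linarith
    have hle : ∀ b, G (p b) ≤ G (p a) := by
      apply local_max hd hP D G
      intro b hba hb
      rw [hGa]
      by_cases hbρ : (⟨b, hba, hb⟩ : Lk p a) ∈ ρ
      · exact (hGρ _ hbρ).le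
      · exact (hGn _ hbρ).le
    have hG0 : G ≠ 0 := by
      intro h0
      apply hρ
      ext b
      simp only [mem_univ, iff_true]
      by_contra hb
      have h3 := hGn b hb
      rw [← hGa, h0] at h3
      simp at h3
    have hface := face_of_max hP G hG0 hle
    have heq : up ρ = univ.filter (fun x => G (p x) = G (p a)) := by
      ext x
      simp only [mem_up, mem_filter, mem_univ, true_and]
      constructor
      · rintro (rfl | ⟨b, hb, rfl⟩)
        · rfl
        · rw [hGρ b hb, hGa]
      · intro hx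
        by_cases hxa : x = a
        · exact Or.inl hxa
        · right
          have hxf := pair_of_max hP G hG0 hle hx
          refine ⟨⟨x, hxa, hxf⟩, ?_, rfl⟩
          by_contra hn
          have := hGn ⟨x, hxa, hxf⟩ hn
          rw [hx, hGa] at this
          exact lt_irrefl _ this
    rw [heq]
    exact hface
  · rintro ⟨hne, G, c, h1, h2⟩
    have ha : G (p a) = c := h1 a (mem_up.2 (Or.inl rfl))
    obtain ⟨f, hf⟩ := D.factor (G - c • D.h) (by simp [ha, D.ha])
    have hq : ∀ b : Lk p a, (1 - D.h (p b.1)) * (f (D.q b) - c) = G (p b.1) - c := by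
      intro b
      have h3 := D.key f b
      rw [hf] at h3
      simp only [LinearMap.sub_apply, LinearMap.smul_apply, smul_eq_mul] at h3
      rw [mul_sub, ← h3]
      ring
    refine ⟨?_, f, c, ?_, ?_⟩
    · rintro rfl
      apply hne
      have hG : G = 0 := const_star hd hP D G (by
        intro b hb1 hb2
        rw [ha]
        exact h1 b (mem_up.2 (Or.inr ⟨⟨b, hb1, hb2⟩, mem_univ _, rfl⟩)))
      ext x
      simp only [mem_univ, iff_true]
      by_contra hx
      have h3 := h2 x hx
      rw [← ha, hG] at h3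
      simp at h3
    · intro b hb
      have h3 := hq b
      rw [h1 b.1 (mem_up_val.2 hb), sub_self] at h3
      have := (mul_eq_zero.1 h3).resolve_left (D.pos b).ne'
      linarith
    · intro b hb
      have h3 := hq b
      have h4 := h2 b.1 (fun h => hb (mem_up_val.1 h))
      by_contra hcon
      push Not at hcon
      have := mul_nonneg (D.pos b).le (sub_nonneg.2 hcon)
      linarith

theorem up_singleton {p : V → E d} {a : V} (b : Lk p a) : up ({b} : Finset (Lk p a)) = {a, b.1} := by
  ext x
  simp only [mem_up, mem_singleton, mem_insert, exists_eq_left]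
  tauto

theorem link_polytope (hd : 1 ≤ d) {p : V → E (d + 1)} (hP : IsSimplicialPolytope p) {a : V}
    (D : LinkData p a) : IsSimplicialPolytope D.q := by
  refine ⟨?_, ?_, ?_⟩
  · by_contra hcon
    obtain ⟨e0, he0a, he0⟩ := exists_nbr hd hP D
    set b0 : Lk p a := ⟨e0, he0a, he0⟩ with hb0
    -- a functional constant on the range
    have hdir : (affineSpan ℝ (Set.range D.q)).direction ≠ ⊤ := by
      intro h
      apply hcon
      rwa [AffineSubspace.direction_eq_top_iff_of_nonempty] at h
      exact (affineSpan_nonempty ℝ).2 ⟨_, Set.mem_range_self b0⟩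
    obtain ⟨f, hf0, hf⟩ := Submodule.exists_le_ker_of_lt_top _ (lt_top_iff_ne_top.2 hdir)
    have hconst : ∀ b : Lk p a, f (D.q b) = f (D.q b0) := by
      intro b
      have h1 : D.q b - D.q b0 ∈ (affineSpan ℝ (Set.range D.q)).direction := by
        rw [← vsub_eq_sub]
        exact AffineSubspace.vsub_mem_direction (mem_affineSpan ℝ (Set.mem_range_self b))
          (mem_affineSpan ℝ (Set.mem_range_self b0))
      have h2 := hf h1
      rw [LinearMap.mem_ker, map_sub] at h2
      linarith
    set c := f (D.q b0) with hc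
    have hG : f.comp D.π + c • D.h = 0 := by
      apply const_star hd hP D
      intro b hb1 hb2
      rw [D.key3]
      have h1 := D.key2 f c ⟨b, hb1, hb2⟩
      rw [hconst, sub_self, mul_zero] at h1
      linarith
    have hc0 : c = 0 := by
      rw [← D.key3 f c, hG]; simp
    apply hf0
    apply LinearMap.ext
    intro x
    obtain ⟨y, rfl⟩ := D.surj x
    have h1 := LinearMap.congr_fun hG y
    rw [hc0] at h1
    simpa using h1
  · intro b
    rw [link_face hd hP D, up_singleton]
    exact b.2.2
  · intro ρ hρ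
    have h1 := (aff_iff p (up ρ)).1 (hP.simplicial _ ((link_face hd hP D ρ).1 hρ))
    rw [aff_iff]
    intro c hc hs hq
    set κ : ℝ := ∑ b : Lk p a, (1 - D.h (p b.1))⁻¹ * c b with hκ
    have hsum : ∀ x : V → E (d + 1), ∑ b, (∑ b : Lk p a, ((1 - D.h (p b.1))⁻¹ * c b) • dl b.1
        - κ • dl a : V → ℝ) b • x b = ∑ b : Lk p a, ((1 - D.h (p b.1))⁻¹ * c b) • x b.1 - κ • x a := by
      intro x
      have e : ∀ u : V, ∑ b, (dl u : V → ℝ) b • x b = x u := by
        intro u
        rw [Finset.sum_eq_single u]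
        · simp [dl]
        · intro b _ hb; simp [dl, hb]
        · intro h; exact absurd (mem_univ u) h
      simp only [Pi.sub_apply, Finset.sum_apply, Pi.smul_apply, smul_eq_mul, sub_smul,
        Finset.sum_sub_distrib, Finset.sum_smul, mul_smul]
      rw [Finset.sum_comm]
      congr 1
      · refine Finset.sum_congr rfl fun b _ => ?_
        rw [← Finset.smul_sum, ← Finset.smul_sum, e]
      · rw [← Finset.smul_sum, e]
    have hsum1 : ∑ b, (∑ b : Lk p a, ((1 - D.h (p b.1))⁻¹ * c b) • dl b.1
        - κ • dl a : V → ℝ) b = ∑ b : Lk p a, ((1 - D.h (p b.1))⁻¹ * c b) - κ := by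
      have e : ∀ u : V, ∑ b, (dl u : V → ℝ) b = 1 := by
        intro u
        rw [Finset.sum_eq_single u]
        · simp [dl]
        · intro b _ hb; simp [dl, hb]
        · intro h; exact absurd (mem_univ u) h
      simp only [Pi.sub_apply, Finset.sum_apply, Pi.smul_apply, smul_eq_mul,
        Finset.sum_sub_distrib]
      rw [Finset.sum_comm]
      congr 1
      · refine Finset.sum_congr rfl fun b _ => ?_
        rw [← Finset.mul_sum, e, mul_one]
      · rw [← Finset.mul_sum, e, mul_one]
    -- the point relation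
    have hπ : D.π (∑ b : Lk p a, ((1 - D.h (p b.1))⁻¹ * c b) • p b.1) = 0 := by
      rw [map_sum, ← hq]
      refine Finset.sum_congr rfl fun b _ => ?_
      rw [map_smul]
      unfold LinkData.q
      rw [smul_smul, mul_comm]
    obtain ⟨k, hk⟩ := D.ker _ hπ
    have hhk : ∑ b : Lk p a, ((1 - D.h (p b.1))⁻¹ * c b) * D.h (p b.1) = k := by
      have h2 := congrArg D.h hk
      rw [map_sum, map_smul, D.ha] at h2
      simpa [map_smul] using h2
    have hkκ : k = κ := by
      have h2 : ∑ b : Lk p a, ((1 - D.h (p b.1))⁻¹ * c b) * (1 - D.h (p b.1)) = 0 := by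
        rw [← hs]
        refine Finset.sum_congr rfl fun b _ => ?_
        field_simp [(D.pos b).ne']
      simp only [mul_sub, mul_one, Finset.sum_sub_distrib] at h2
      rw [hhk] at h2
      linarith
    have h3 := h1 (∑ b : Lk p a, ((1 - D.h (p b.1))⁻¹ * c b) • dl b.1 - κ • dl a) (by
      intro x hx
      rw [mem_up, not_or] at hx
      simp only [Pi.sub_apply, Finset.sum_apply, Pi.smul_apply, smul_eq_mul]
      have e1 : (dl a : V → ℝ) x = 0 := by simp [dl, hx.1]
      rw [e1, mul_zero, sub_zero]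
      refine Finset.sum_eq_zero fun b _ => ?_
      by_cases hb : b ∈ ρ
      · have : x ≠ b.1 := fun h => hx.2 ⟨b, hb, h.symm⟩
        simp [dl, this]
      · rw [hc b hb]; ring) (by rw [hsum1]; exact sub_self _) (by
      rw [hsum p, hk, hkκ, sub_self])
    funext b
    have h4 := congrFun h3 b.1
    simp only [Pi.sub_apply, Finset.sum_apply, Pi.smul_apply, smul_eq_mul, Pi.zero_apply] at h4
    have e1 : (dl a : V → ℝ) b.1 = 0 := by simp [dl, b.2.1]
    rw [e1, mul_zero, sub_zero, Finset.sum_eq_single b] at h4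
    · have e2 : (dl b.1 : V → ℝ) b.1 = 1 := by simp [dl]
      rw [e2, mul_one] at h4
      exact (mul_eq_zero.1 h4).resolve_left (inv_ne_zero (D.pos b).ne')
    · intro c' _ hc'
      have : b.1 ≠ c'.1 := fun h => hc' (Subtype.ext h.symm)
      simp [dl, this]
    · intro h; exact absurd (mem_univ _) h

end Pool.Agent.K9h62.St
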