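import Pool.Agent.K9h62.St.Near
import Pool.Agent.K9h62.St.Bend

/-!
# The local statement: affine on the closed star of each vertex
-/

namespace Pool.Agent.K9h62.St

open MvPolynomial Finset
open Pool.Agent.TH47.Lev (L dl L_dl eval_L eval_L_two)

variable {V : Type} [Fintype V] [DecidableEq V] {d : ℕ}

theorem eval_SR {p : V → E d} (hP : IsSimplicialPolytope p) {f : MvPolynomial V ℝ}
    (hf : f ∈ SR p) {S : Finset V} (hS : IsFace p S) (δ : V → ℝ) (hδ : ∀ a, a ∉ S → δ a = 0) :
    eval δ f = 0 := by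
  have : SR p ≤ RingHom.ker (eval δ) := by
    unfold SR
    rw [Ideal.span_le]
    rintro m ⟨σ, hσ, rfl⟩
    simp only [SetLike.mem_coe, RingHom.mem_ker, map_prod, eval_X]
    have : ¬ σ ⊆ S := fun h => hσ (face_mono hP hS h)
    obtain ⟨a, ha, haS⟩ := Finset.not_subset.mp this
    exact Finset.prod_eq_zero ha (hδ a haS)
  exact this hf

/-- extracting coefficients -/
theorem rel_coeff {p : V → E d} (hP : IsSimplicialPolytope p) {v : V} (hv : p v = 0)
    {y a q : V → ℝ} {w : Fin d → V → ℝ}
    (h : L y * L a - L (fun _ => 1) * L q - ∑ j, L (fun a => p a j) * L (w j) ∈ SR p)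
    (hy : y v = 0) :
    q v = 0 ∧ ∀ u, u ≠ v → IsFace p {v, u} → y u * a v = q u + ∑ j, p u j * w j v := by
  have key : ∀ s r : ℝ, ∀ u, IsFace p {v, u} →
      (s * y v + r * y u) * (s * a v + r * a u) - (s + r) * (s * q v + r * q u)
        - ∑ j, (r * p u j) * (s * w j v + r * w j u) = 0 := by
    intro s r u hu
    have h1 := eval_SR hP h hu (s • dl v + r • dl u) (by
      intro b hb
      simp only [Finset.mem_insert, Finset.mem_singleton, not_or] at hb
      simp [dl, hb.1, hb.2])
    simp only [map_sub, map_mul, map_sum, eval_L_two] at h1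
    have hv' : ∀ j, p v j = 0 := fun j => by rw [hv]; rfl
    simp only [hv', mul_zero, zero_add, mul_one] at h1
    exact h1
  have hq : q v = 0 := by
    have hvv : IsFace p {v, v} := by
      have := hP.vertex v
      simpa using this
    have h1 := key 1 0 v hvv
    simp [hy] at h1
    exact h1
  refine ⟨hq, ?_⟩
  intro u huv hu
  have h1 := key 1 1 u hu
  have h2 := key (-1) 1 u hu
  have e1 : ∑ j, (1 * p u j) * (1 * w j v + 1 * w j u)
      = ∑ j, p u j * w j v + ∑ j, p u j * w j u := by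
    rw [← Finset.sum_add_distrib]
    exact Finset.sum_congr rfl fun j _ => by ring
  have e2 : ∑ j, (1 * p u j) * (-1 * w j v + 1 * w j u)
      = - ∑ j, p u j * w j v + ∑ j, p u j * w j u := by
    rw [← Finset.sum_neg_distrib, ← Finset.sum_add_distrib]
    exact Finset.sum_congr rfl fun j _ => by ring
  rw [e1] at h1
  rw [e2] at h2
  rw [hy, hq] at h1 h2
  linarith

/-- a linear functional in coordinates -/
theorem L_ev_eq (p : V → E d) (l : E d →ₗ[ℝ] ℝ) :
    L (fun a => l (p a)) = ∑ j, C (l (Pi.single j 1)) * L (fun a => p a j) := by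
  have : (fun a => l (p a)) = ∑ j, l (Pi.single j 1) • (fun a => p a j) := by
    funext a
    simp only [Finset.sum_apply, Pi.smul_apply, smul_eq_mul]
    conv_lhs => rw [LinearMap.pi_apply_eq_sum_univ l (p a)]
    refine Finset.sum_congr rfl fun j _ => ?_
    rw [smul_eq_mul, mul_comm]
    congr 2
    funext i
    simp [Pi.single_apply, eq_comm]
  rw [this, map_sum]
  refine Finset.sum_congr rfl fun j _ => ?_
  rw [map_smul, MvPolynomial.smul_eq_C_mul]

/-- Subtracting an affine function does not change the relation; `t` changes only by the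
constant. -/
theorem rel_sub_step {p : V → E d} {y a t : V → ℝ} {w : Fin d → V → ℝ}
    (h : L y * L a - L (fun _ => 1) * L t - ∑ j, L (fun a => p a j) * L (w j) ∈ SR p)
    (l : E d →ₗ[ℝ] ℝ) (b : ℝ) :
    L (y - (fun a => l (p a)) - b • (fun _ => 1)) * L a - L (fun _ => 1) * L (t - b • a)
      - ∑ j, L (fun a => p a j) * L (w j - l (Pi.single j 1) • a) ∈ SR p := by
  have e : L (y - (fun a => l (p a)) - b • (fun _ => 1)) * L a - L (fun _ => 1) * L (t - b • a)
      - ∑ j, L (fun a => p a j) * L (w j - l (Pi.single j 1) • a)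
      = L y * L a - L (fun _ => 1) * L t - ∑ j, L (fun a => p a j) * L (w j) := by
    simp only [map_sub, map_smul, L_ev_eq, MvPolynomial.smul_eq_C_mul, mul_sub,
      Finset.sum_sub_distrib, sub_mul, Finset.sum_mul]
    have : ∑ j, L (fun a => p a j) * (C (l (Pi.single j 1)) * L a)
        = ∑ j, C (l (Pi.single j 1)) * L (fun a => p a j) * L a :=
      Finset.sum_congr rfl fun j _ => by ring
    rw [this]
    ring
  rw [e]
  exact h

theorem rel_sub {p : V → E d} {y : V → ℝ} (hy : Rel p y) (l : E d →ₗ[ℝ] ℝ) (b : ℝ) :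
    Rel p (y - (fun a => l (p a)) - b • (fun _ => 1)) := by
  intro u
  obtain ⟨t, w, h⟩ := hy u
  exact ⟨t - b • dl u, fun j => w j - l (Pi.single j 1) • dl u, rel_sub_step h l b⟩

/-- the no-bend condition near the link of the apex -/
theorem nb_of_rel (hd : 4 ≤ d) {p : V → E d} (hP : IsSimplicialPolytope p) {u : V} (hu : p u = 0)
    (hmiss : ∀ S, IsMissingFace p S → S.card + 1 ≤ d) {y z : V → ℝ} (hy : Rel p y)
    (hR : Mult p (dl u) y z) (hyu : y u = 0) (hzu : z u = 0)
    (hyz : ∀ b, b ≠ u → IsFace p {u, b} → y b = z b) : NB p u z := by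
  intro τ κ s s' hτ hκτ hκ huτ hκf hsu hs'u hs hs' hss hf hf'
  have hpos := pos_of_apex hu
  have hnz : ∀ b, b ≠ u → p b ≠ 0 := fun b hb h => hb (p_inj hP (by rw [h, hu]))
  have hτn : ∀ a ∈ τ, p a ≠ 0 := fun a ha => hnz a (fun h => huτ (h ▸ ha))
  have hτf : IsFace p τ := face_mono hP hf (subset_insert _ _)
  -- the ridge is interior
  have hni : ¬ IsFace p (insert u τ) := by
    intro h
    exact no_three d (by omega) V p hP hpos τ hτ hτn u s s' hsu.symm hs'u.symm hss huτ hs hs' h hf hf'
  -- a vertex `w`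
  obtain ⟨w, hw, hwf⟩ : ∃ w ∈ τ, ¬ IsFace p (insert u (τ.erase w)) := by
    by_contra hcon
    push Not at hcon
    have hm : IsMissingFace p (insert u τ) := by
      refine ⟨hni, ?_⟩
      intro T hT
      obtain ⟨hT1, hT2⟩ := Finset.ssubset_iff_subset_ne.mp hT
      obtain ⟨x, hx, hxT⟩ : ∃ x ∈ insert u τ, x ∉ T := by
        by_contra h
        push Not at h
        exact hT2 (Finset.Subset.antisymm hT1 h)
      rw [mem_insert] at hx
      rcases hx with rfl | hx
      · refine face_mono hP hτf ?_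
        intro t ht
        have := hT1 ht
        rw [mem_insert] at this
        rcases this with rfl | h
        · exact absurd ht hxT
        · exact h
      · refine face_mono hP (hcon x hx) ?_
        intro t ht
        have := hT1 ht
        rw [mem_insert] at this ⊢
        rcases this with rfl | h
        · exact Or.inl rfl
        · exact Or.inr (mem_erase.2 ⟨fun h' => hxT (h' ▸ ht), h⟩)
    have h1 := hmiss _ hm
    rw [card_insert_of_notMem huτ] at h1
    omega
  have hwκ : w ∈ κ := by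
    by_contra hcon
    apply hwf
    have h1 : κ = τ.erase w := by
      apply Finset.eq_of_subset_of_card_le
      · intro t ht
        exact mem_erase.2 ⟨fun h => hcon (h ▸ ht), hκτ ht⟩
      · rw [card_erase_of_mem hw]
        omega
    rw [← h1]
    exact hκf
  obtain ⟨κ0, hκ0, hκ0c⟩ := Finset.exists_subset_card_eq (s := κ.erase w) (n := d - 4) (by
    rw [card_erase_of_mem hwκ]
    omega)
  refine bend_main d hd V p hP u hu y z hy hR hyu hzu hyz τ κ0 w s s' hτ huτ hw ?_ (by omega) ?_ hwf
    hsu hs'u hs hs' hss hf hf'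
  · intro t ht
    have h1 := mem_erase.1 (hκ0 ht)
    exact mem_erase.2 ⟨h1.1, hκτ h1.2⟩
  · refine face_mono hP hκf ?_
    intro t ht
    rw [mem_insert] at ht ⊢
    rcases ht with rfl | ht
    · exact Or.inl rfl
    · exact Or.inr (mem_erase.1 (hκ0 ht)).2

theorem local_affine (hd : 4 ≤ d) {p : V → E d} (hP : IsSimplicialPolytope p) {v : V} (hv : p v = 0)
    (hmiss : ∀ S, IsMissingFace p S → S.card + 1 ≤ d) {y : V → ℝ} (hy : Rel p y) :
    ∃ (l : E d →ₗ[ℝ] ℝ) (b : ℝ), y v = l (p v) + b ∧
      ∀ u, u ≠ v → IsFace p {v, u} → y u = l (p u) + b := by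
  -- normalise the constant
  obtain ⟨t, w, h0⟩ := hy v
  have hy1 := rel_sub hy 0 (y v)
  have h1 := rel_sub_step h0 0 (y v)
  have hy1v : (y - (fun a => (0 : E d →ₗ[ℝ] ℝ) (p a)) - y v • (fun _ : V => (1 : ℝ)) : V → ℝ) v = 0 := by
    simp
  obtain ⟨c1, c2⟩ := rel_coeff hP hv h1 hy1v
  obtain ⟨lin, hlin⟩ : ∃ lin : E d →ₗ[ℝ] ℝ, ∀ a, lin (p a)
      = ∑ j, p a j * (w j - (0 : E d →ₗ[ℝ] ℝ) (Pi.single j 1) • dl v) v := by
    refine ⟨∑ j, ((w j - (0 : E d →ₗ[ℝ] ℝ) (Pi.single j 1) • dl v) v) • LinearMap.proj j,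
      fun a => ?_⟩
    simp [LinearMap.sum_apply, mul_comm]
  have hy2 := rel_sub hy1 lin 0
  have h2 := rel_sub_step h1 lin 0
  have hlv : lin (p v) = 0 := by rw [hv, map_zero]
  have hdv : dl v v = 1 := by simp [dl]
  have hy2v : (y - (fun a => (0 : E d →ₗ[ℝ] ℝ) (p a)) - y v • (fun _ => 1)
      - (fun a => lin (p a)) - (0 : ℝ) • (fun _ => 1) : V → ℝ) v = 0 := by
    simp only [Pi.sub_apply, Pi.smul_apply, smul_eq_mul] at hy1v ⊢
    rw [hlv]; simp
  have hz2v : (t - y v • dl v - (0 : ℝ) • dl v : V → ℝ) v = 0 := by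
    simp only [Pi.sub_apply, Pi.smul_apply, smul_eq_mul] at c1 ⊢
    simpa using c1
  have hyz : ∀ u, u ≠ v → IsFace p {v, u} → (y - (fun a => (0 : E d →ₗ[ℝ] ℝ) (p a)) - y v • (fun _ => 1)
      - (fun a => lin (p a)) - (0 : ℝ) • (fun _ => 1) : V → ℝ) u = (t - y v • dl v - (0 : ℝ) • dl v : V → ℝ) u := by
    intro u huv hu
    have h3 := c2 u huv hu
    rw [← hlin u] at h3
    simp only [Pi.sub_apply, Pi.smul_apply, smul_eq_mul, hdv, LinearMap.zero_apply] at h3 ⊢
    linarith
  obtain ⟨l, hl⟩ := near d (by omega) V p hP v hv _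
    (nb_of_rel hd hP hv hmiss hy2 ⟨_, h2⟩ hy2v hz2v hyz)
  refine ⟨l + lin, y v, ?_, ?_⟩
  · simp [hv]
  · intro u huv hu
    -- a codimension-two face of the link containing `u`
    have hpos := pos_of_apex hv
    obtain ⟨G, hG, hsub, hGc, -⟩ := ext_face d (by omega) V p hP hpos _ hu
    have hvG : v ∈ G := hsub (by simp)
    have huG : u ∈ G := hsub (by simp)
    have huG' : u ∈ G.erase v := mem_erase.2 ⟨huv, huG⟩
    have hρc : (G.erase v).card + 1 = d := by rw [card_erase_of_mem hvG, hGc]; omega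
    obtain ⟨e, he, heu⟩ : ∃ e ∈ G.erase v, e ≠ u := by
      by_contra hcon
      push Not at hcon
      have : (G.erase v) ⊆ {u} := fun t ht => by rw [mem_singleton]; exact hcon t ht
      have := card_le_card this
      rw [card_singleton] at this
      omega
    have hκsub : (G.erase v).erase e ⊆ G.erase v := erase_subset _ _
    have h4 := hl ((G.erase v).erase e) (by rw [card_erase_of_mem he]; omega) (fun h => by
      have := hκsub h
      simp at this) (face_mono hP hG (by
      intro t ht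
      rw [mem_insert] at ht
      rcases ht with rfl | ht
      · exact hvG
      · exact (mem_erase.1 (hκsub ht)).2)) u huv (Or.inl (mem_erase.2 ⟨heu.symm, huG'⟩))
    have h3 := c2 u huv hu
    rw [← hlin u] at h3
    simp only [Pi.sub_apply, Pi.smul_apply, smul_eq_mul, hdv, LinearMap.zero_apply,
      LinearMap.add_apply] at h3 h4 ⊢
    linarith

end Pool.Agent.K9h62.St
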