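import Pool.Agent.K9h62.St.Glue

/-!
# Functions without bends near the link of the apex are linear there
-/

namespace Pool.Agent.K9h62.St

open MvPolynomial Finset
open Pool.Agent.TH47.Lev (L L_apply dl L_dl)

variable {V : Type} [Fintype V] [DecidableEq V] {d : ℕ}

/-- no bend at the ridges which contain a codimension-two face of the link of `u` -/
def NB (p : V → E d) (u : V) (z : V → ℝ) : Prop :=
  ∀ (τ κ : Finset V) (s s' : V), τ.card + 1 = d → κ ⊆ τ → κ.card + 2 = d → u ∉ τ →
    IsFace p (insert u κ) → s ≠ u → s' ≠ u → s ∉ τ → s' ∉ τ → s ≠ s' →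
    IsFace p (insert s τ) → IsFace p (insert s' τ) → Lin p z (insert s (insert s' τ))

/-- linear on the facets around the codimension-two faces of the link of `u` -/
def Conc (p : V → E d) (u : V) (z : V → ℝ) (l : E d →ₗ[ℝ] ℝ) : Prop :=
  ∀ κ : Finset V, κ.card + 2 = d → u ∉ κ → IsFace p (insert u κ) → ∀ b, b ≠ u →
    (b ∈ κ ∨ IsFace p (insert b κ)) → z b = l (p b)

theorem near_two {p : V → E 2} (hP : IsSimplicialPolytope p) {u : V} (hu : p u = 0)
    {z : V → ℝ} (hNB : NB p u z) : ∃ l, Conc p u z l := by
  classical
  have hpos := pos_of_apex hu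
  have hnz : ∀ b, b ≠ u → p b ≠ 0 := fun b hb h => hb (p_inj hP (by rw [h, hu]))
  -- around each vertex
  have star : ∀ x, x ≠ u → ∃ l : E 2 →ₗ[ℝ] ℝ, z x = l (p x) ∧
      ∀ b, b ≠ u → b ≠ x → IsFace p {x, b} → z b = l (p b) := by
    intro x hx
    by_cases hall : ∃ s s', s ≠ s' ∧ s ≠ u ∧ s' ≠ u ∧ s ≠ x ∧ s' ≠ x ∧ IsFace p {x, s} ∧ IsFace p {x, s'}
    · obtain ⟨s, s', hss, hsu, hs'u, hsx, hs'x, hf, hf'⟩ := hall
      obtain ⟨l, hl⟩ := hNB {x} ∅ s s' (by simp) (by simp) (by simp) (by simpa using hx.symm)
        (by simpa using hP.vertex u) hsu hs'u (by simpa using hsx) (by simpa using hs'x) hss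
        (by rw [Finset.pair_comm]; exact hf) (by rw [Finset.pair_comm]; exact hf')
      refine ⟨l, hl x (by simp), ?_⟩
      intro b hbu hbx hbf
      by_cases hbs : b = s
      · exact hl b (by simp [hbs])
      by_cases hbs' : b = s'
      · exact hl b (by simp [hbs'])
      exfalso
      refine no_three 2 (by norm_num) V p hP hpos {x} (by simp) (by simpa using hnz x hx) s s' b hss
        (Ne.symm hbs) (Ne.symm hbs') (by simpa using hsx) (by simpa using hs'x) (by simpa using hbx)
        (by rw [Finset.pair_comm]; exact hf) (by rw [Finset.pair_comm]; exact hf')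
        (by rw [Finset.pair_comm]; exact hbf)
    · push Not at hall
      by_cases hone : ∃ s, s ≠ u ∧ s ≠ x ∧ IsFace p {x, s}
      · obtain ⟨s, hsu, hsx, hf⟩ := hone
        obtain ⟨l, hl⟩ := interp hP hpos hf (by
          intro a ha
          rw [mem_insert, mem_singleton] at ha
          rcases ha with rfl | rfl
          · exact hnz _ hx
          · exact hnz _ hsu) z
        refine ⟨l, hl x (by simp), ?_⟩
        intro b hbu hbx hbf
        by_cases hbs : b = s
        · exact hl b (by simp [hbs])
        · exact absurd hbf (hall s b (Ne.symm hbs) hsu hbu hsx hbx hf)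
      · push Not at hone
        obtain ⟨l, hl⟩ := interp hP hpos (hP.vertex x) (by simpa using hnz x hx) z
        refine ⟨l, hl x (by simp), ?_⟩
        intro b hbu hbx hbf
        exact absurd hbf (hone b hbu hbx)
  choose! l hl1 hl2 using star
  have hadj : ∀ a b, a ≠ u → b ≠ u → a ≠ b → IsFace p {a, b} → l a = l b := by
    intro a b ha hb hab hf
    apply facet_unique hP hpos hf (by
      intro x hx
      rw [mem_insert, mem_singleton] at hx
      rcases hx with rfl | rfl
      · exact hnz _ ha
      · exact hnz _ hb) (by rw [card_pair hab])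
    intro x hx
    rw [mem_insert, mem_singleton] at hx
    rcases hx with rfl | rfl
    · rw [← hl1 _ ha, ← hl2 b hb x ha hab (by rw [Finset.pair_comm]; exact hf)]
    · rw [← hl1 _ hb, ← hl2 a ha x hb hab.symm hf]
  obtain ⟨a0, ha0⟩ := exists_nonzero hP
  have ha0u : a0 ≠ u := fun h => ha0 (h ▸ hu)
  have hcon := apex_connected hP hu (univ.filter (fun a => a ≠ u ∧ l a = l a0)) ⟨a0, by simp [ha0u]⟩
    (by simp) (by
      intro a ha b hb hab hf
      rw [mem_filter] at ha ⊢
      exact ⟨mem_univ _, hb, (hadj a b ha.2.1 hb hab hf).symm.trans ha.2.2⟩)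
  refine ⟨l a0, ?_⟩
  intro κ _ _ _ b hb _
  have := (mem_filter.1 (hcon b hb)).2.2
  rw [← this]
  exact hl1 b hb

theorem near : ∀ (d : ℕ), 2 ≤ d → ∀ (V : Type) [Fintype V] [DecidableEq V] (p : V → E d),
    IsSimplicialPolytope p → ∀ (u : V), p u = 0 → ∀ (z : V → ℝ), NB p u z → ∃ l, Conc p u z l := by
  intro d hd
  induction d, hd using Nat.le_induction with
  | base =>
    intro V _ _ p hP u hu z hNB
    exact near_two hP hu hNB
  | succ d hd ih =>
    intro V _ _ p hP u hu z hNB
    have hd1 : 1 ≤ d := by omega
    have hpos := pos_of_apex hu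
    have hnz : ∀ b, b ≠ u → p b ≠ 0 := fun b hb h => hb (p_inj hP (by rw [h, hu]))
    -- around each neighbour of the apex
    have loc : ∀ a, a ≠ u → IsFace p {u, a} → ∃ l : E (d + 1) →ₗ[ℝ] ℝ,
        ∀ κ : Finset V, κ.card + 2 = d + 1 → u ∉ κ → a ∈ κ → IsFace p (insert u κ) → ∀ b, b ≠ u →
        (b ∈ κ ∨ IsFace p (insert b κ)) → z b = l (p b) := by
      intro a hau haf
      obtain ⟨D⟩ := exists_linkData hP hpos (hnz a hau)
      set u' : Lk p a := ⟨u, hau.symm, by rw [Finset.pair_comm]; exact haf⟩ with hu'
      have hNB' : NB D.q u' (D.r z) := by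
        intro τ κ s s' hτ hκτ hκ huτ hκf hsu hs'u hs hs' hss hf hf'
        have hup : ∀ (x : Lk p a) (ρ : Finset (Lk p a)), up (insert x ρ) = insert x.1 (up ρ) := by
          intro x ρ
          ext t
          rw [mem_up, mem_insert, mem_up]
          simp only [mem_insert, exists_eq_or_imp]
          constructor
          · rintro (h | h | h)
            · exact Or.inr (Or.inl h)
            · exact Or.inl h.symm
            · exact Or.inr (Or.inr h)
          · rintro (h | h | h)
            · exact Or.inr (Or.inl h.symm)
            · exact Or.inl h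
            · exact Or.inr (Or.inr h)
        apply lin_fwd D
        rw [hup, hup]
        apply hNB (up τ) (up κ) s.1 s'.1 (by rw [card_up]; omega)
        · intro t ht
          rw [mem_up] at ht ⊢
          rcases ht with h | ⟨c, hc, h⟩
          · exact Or.inl h
          · exact Or.inr ⟨c, hκτ hc, h⟩
        · rw [card_up]; omega
        · intro h
          exact huτ ((mem_up_val (b := u')).1 h)
        · have := (link_face hd1 hP D _).1 hκf
          rwa [hup] at this
        · exact fun h => hsu (Subtype.ext h)
        · exact fun h => hs'u (Subtype.ext h)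
        · exact fun h => hs (mem_up_val.1 h)
        · exact fun h => hs' (mem_up_val.1 h)
        · exact fun h => hss (Subtype.ext h)
        · have := (link_face hd1 hP D _).1 hf
          rwa [hup] at this
        · have := (link_face hd1 hP D _).1 hf'
          rwa [hup] at this
      obtain ⟨l, hl⟩ := ih (Lk p a) D.q (link_polytope hd1 hP D) u' ((q_zero hpos D u').2 hu)
        (D.r z) hNB'
      refine ⟨l.comp D.π + z a • D.h, ?_⟩
      intro κ hκ huκ haκ hκf b hbu hb
      by_cases hba : b = a
      · rw [hba, D.key3]
      have hκf' : IsFace p κ := face_mono hP hκf (subset_insert _ _)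
      have hupκ := up_dn hP haκ hκf'
      have hbf : IsFace p (insert b κ) := by
        rcases hb with h | h
        · rwa [insert_eq_of_mem h]
        · exact h
      have hbl : b ≠ a ∧ IsFace p {a, b} := ⟨hba, face_mono hP hbf (by
        intro t ht
        rw [mem_insert, mem_singleton] at ht
        rcases ht with rfl | rfl
        · exact mem_insert_of_mem haκ
        · exact mem_insert_self _ _)⟩
      have h1 := hl (dn a κ) (by
        have := card_up (dn a κ : Finset (Lk p a))
        rw [hupκ] at this
        omega) (fun h => huκ (mem_dn.1 h)) (by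
        apply link_face_sub hd1 hP D hκf
        intro t ht
        rw [mem_up] at ht
        rcases ht with rfl | ⟨c, hc, rfl⟩
        · exact mem_insert_of_mem haκ
        · rw [mem_insert] at hc
          rcases hc with rfl | hc
          · exact mem_insert_self _ _
          · exact mem_insert_of_mem (mem_dn.1 hc)) ⟨b, hbl⟩ (fun h => hbu (congrArg Subtype.val h)) (by
        right
        apply link_face_sub hd1 hP D hbf
        intro t ht
        rw [mem_up] at ht
        rcases ht with rfl | ⟨c, hc, rfl⟩
        · exact mem_insert_of_mem haκ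
        · rw [mem_insert] at hc
          rcases hc with rfl | hc
          · exact mem_insert_self _ _
          · exact mem_insert_of_mem (mem_dn.1 hc))
      have h2 := D.key l ⟨b, hbl⟩
      simp only [LinearMap.add_apply, LinearMap.coe_comp, Function.comp_apply,
        LinearMap.smul_apply, smul_eq_mul]
      simp only at h2
      rw [h2, ← h1]
      unfold LinkData.r
      have := (D.pos ⟨b, hbl⟩).ne'
      simp only at this ⊢
      field_simp
      ring
    choose! l hl using loc
    -- gluing along edges of the link
    have hadj : ∀ a b, a ≠ u → b ≠ u → a ≠ b → IsFace p {u, a, b} → l a = l b := by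
      intro a b ha hb hab hf
      obtain ⟨G, hG, hsub, hGc, -⟩ := ext_face (d + 1) (by omega) V p hP hpos _ hf
      have huG : u ∈ G := hsub (by simp)
      have haG : a ∈ G := hsub (by simp)
      have hbG : b ∈ G := hsub (by simp)
      have hρf : IsFace p (G.erase u) := face_mono hP hG (erase_subset _ _)
      obtain ⟨F, hF, hsubF, hFc, hFz⟩ := ext_face (d + 1) (by omega) V p hP hpos _ hρf
      have huF : u ∉ F := by
        intro h
        have := hFz u h hu
        simp at this
      have hρc : (G.erase u).card = d := by rw [card_erase_of_mem huG, hGc]; omega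
      have hFn : ∀ x ∈ F, p x ≠ 0 := fun x hx => hnz x (fun h => huF (h ▸ hx))
      apply facet_unique hP hpos hF hFn hFc
      have step : ∀ c, c ≠ u → c ∈ G → IsFace p {u, c} → ∀ x ∈ F, z x = l c (p x) := by
        intro c hcu hcG hcf x hx
        have hcρ : c ∈ G.erase u := mem_erase.2 ⟨hcu, hcG⟩
        obtain ⟨e, he, hec⟩ : ∃ e ∈ G.erase u, e ≠ c := by
          by_contra hcon
          push Not at hcon
          have : (G.erase u) ⊆ {c} := fun t ht => by rw [mem_singleton]; exact hcon t ht
          have := card_le_card this
          rw [card_singleton, hρc] at this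
          omega
        have hκsub : (G.erase u).erase e ⊆ G.erase u := erase_subset _ _
        refine hl c hcu hcf ((G.erase u).erase e) (by
          rw [card_erase_of_mem he, hρc]; omega) (fun h => by
          have := hκsub h
          simp at this) (mem_erase.2 ⟨hec.symm, hcρ⟩) (face_mono hP hG ?_) x
          (fun h => huF (h ▸ hx)) (Or.inr (face_mono hP hF ?_))
        · intro t ht
          rw [mem_insert] at ht
          rcases ht with rfl | ht
          · exact huG
          · exact (mem_erase.1 (hκsub ht)).2
        · intro t ht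
          rw [mem_insert] at ht
          rcases ht with rfl | ht
          · exact hx
          · exact hsubF (hκsub ht)
      intro x hx
      rw [← step a ha haG (face_mono hP hf (by intro t; simp; tauto)) x hx,
        ← step b hb hbG (face_mono hP hf (by intro t; simp; tauto)) x hx]
    -- a neighbour of the apex
    obtain ⟨a0, ha0u, ha0f⟩ : ∃ a, a ≠ u ∧ IsFace p {u, a} := by
      by_contra hcon
      push Not at hcon
      have := graph_connected (by omega) hP {u} (by simp) (by
        intro x hx w hxw hf
        rw [mem_singleton] at hx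
        subst hx
        exact absurd hf (hcon w hxw.symm))
      exact (hP.vertex u).1 this
    have hall := link_connected hd hP u (fun a => a ≠ u ∧ IsFace p {u, a} ∧ l a = l a0) a0 ha0u ha0f
      ⟨ha0u, ha0f, rfl⟩ (by
        rintro a b ⟨h1, h2, h3⟩ hau hbu hab hf
        refine ⟨hbu, face_mono hP hf (by intro t; simp; tauto), ?_⟩
        rw [← hadj a b hau hbu hab hf, h3])
    refine ⟨l a0, ?_⟩
    intro κ hκ huκ hκf b hbu hb
    obtain ⟨a, ha⟩ : κ.Nonempty := by
      rw [← card_pos]
      omega
    have hau : a ≠ u := fun h => huκ (h ▸ ha)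
    have haf : IsFace p {u, a} := face_mono hP hκf (by
      intro t ht
      rw [mem_insert, mem_singleton] at ht
      rcases ht with rfl | rfl
      · exact mem_insert_self _ _
      · exact mem_insert_of_mem ha)
    rw [← (hall a hau haf).2.2]
    exact hl a hau haf κ hκ huκ ha hκf b hbu hb

end Pool.Agent.K9h62.St
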