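import Pool.Agent.K9h62.St.Affine
import Pool.Agent.TH47.Lev.Recon

/-!
# Affine 2-stresses of a simplicial polytope without missing facets determine it
-/

namespace Pool.Agent.K9h62.St

open MvPolynomial Finset
open Pool.Agent.TH47.Lev (L dl L_dl qf sum_pderiv_qf L_injective')

variable {V : Type} [Fintype V] [DecidableEq V] {d : ℕ}

/-- the quadratic elements of the ideal -/
noncomputable def M2 (p : V → E d) : Submodule ℝ (MvPolynomial V ℝ) where
  carrier := {q | ∃ (t : V → ℝ) (w : Fin d → V → ℝ),
    q - L (fun _ => 1) * L t - ∑ j, L (fun a => p a j) * L (w j) ∈ SR p}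
  zero_mem' := ⟨0, 0, by simp⟩
  add_mem' := by
    rintro a b ⟨t, w, h⟩ ⟨t', w', h'⟩
    refine ⟨t + t', w + w', ?_⟩
    have e : a + b - L (fun _ => 1) * L (t + t') - ∑ j, L (fun a => p a j) * L ((w + w') j) =
        (a - L (fun _ => 1) * L t - ∑ j, L (fun a => p a j) * L (w j)) +
        (b - L (fun _ => 1) * L t' - ∑ j, L (fun a => p a j) * L (w' j)) := by
      simp only [map_add, Pi.add_apply, mul_add, sum_add_distrib]
      ring
    rw [e]
    exact (SR p).add_mem h h'
  smul_mem' := by
    rintro c a ⟨t, w, h⟩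
    refine ⟨c • t, c • w, ?_⟩
    have e : c • a - L (fun _ => 1) * L (c • t) - ∑ j, L (fun a => p a j) * L ((c • w) j) =
        C c * (a - L (fun _ => 1) * L t - ∑ j, L (fun a => p a j) * L (w j)) := by
      simp only [map_smul, Pi.smul_apply, MvPolynomial.smul_eq_C_mul]
      rw [mul_sub, mul_sub, mul_sum]
      congr 1
      · ring
      · refine sum_congr rfl fun j _ => ?_
        ring
    rw [e]
    exact (SR p).mul_mem_left _ h

theorem SR_M2 {p : V → E d} {q : MvPolynomial V ℝ} (h : q ∈ SR p) : q ∈ M2 p :=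
  ⟨0, 0, by simpa using h⟩

theorem one_M2 (p : V → E d) (b : V) : (L (fun _ => 1) * X b : MvPolynomial V ℝ) ∈ M2 p := by
  refine ⟨dl b, 0, ?_⟩
  have : (L (fun _ => 1) * X b : MvPolynomial V ℝ) - L (fun _ => 1) * L (dl b)
      - ∑ j, L (fun a => p a j) * L ((0 : Fin d → V → ℝ) j) = 0 := by
    simp [L_dl]
  rw [this]
  exact (SR p).zero_mem

theorem coord_M2 (p : V → E d) (k : Fin d) (b : V) :
    (L (fun a => p a k) * X b : MvPolynomial V ℝ) ∈ M2 p := by
  refine ⟨0, Pi.single k (dl b), ?_⟩
  have : (L (fun a => p a k) * X b : MvPolynomial V ℝ) - L (fun _ => 1) * L 0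
      - ∑ j, L (fun a => p a j) * L ((Pi.single k (dl b) : Fin d → V → ℝ) j) = 0 := by
    rw [Finset.sum_eq_single k]
    · simp [L_dl]
    · intro j _ hj
      rw [Pi.single_eq_of_ne hj, map_zero, mul_zero]
    · intro h
      exact absurd (mem_univ k) h
  rw [this]
  exact (SR p).zero_mem

theorem SR_prod {p : V → E d} {σ : Finset V} (h : ¬ IsFace p σ) :
    ∏ a ∈ σ, (X a : MvPolynomial V ℝ) ∈ SR p := Ideal.subset_span ⟨σ, h, rfl⟩

theorem qf_stress {p : V → E d} (T : MvPolynomial V ℝ →ₗ[ℝ] ℝ)
    (hT : ∀ f ∈ M2 p, T f = 0) : IsAffineStress 2 p (qf T) := by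
  have hzero : ∀ g : V → ℝ, (∀ b, (L g * X b : MvPolynomial V ℝ) ∈ M2 p) →
      ∑ v, C (g v) * pderiv v (qf T) = 0 := by
    intro g hg
    rw [sum_pderiv_qf]
    have : (fun b => T (L g * X b)) = 0 := by
      funext b
      exact hT _ (hg b)
    rw [this, map_zero, mul_zero]
  refine ⟨?_, ?_, ?_, ?_⟩
  · refine IsHomogeneous.sum _ _ _ fun a _ => IsHomogeneous.sum _ _ _ fun b _ => ?_
    have := (isHomogeneous_C V (T (X a * X b))).mul
      ((isHomogeneous_X ℝ a).mul (isHomogeneous_X ℝ b))
    simpa using this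
  · intro m hm
    obtain ⟨a, b, hab⟩ : ∃ a b, coeff m (C (T (X a * X b)) * (X a * X b) : MvPolynomial V ℝ) ≠ 0 := by
      by_contra hcon
      push Not at hcon
      rw [mem_support_iff] at hm
      apply hm
      unfold qf
      rw [coeff_sum]
      refine Finset.sum_eq_zero fun a _ => ?_
      rw [coeff_sum]
      exact Finset.sum_eq_zero fun b _ => hcon a b
    rw [coeff_C_mul] at hab
    have h1 : T (X a * X b) ≠ 0 := left_ne_zero_of_mul hab
    have h2 := right_ne_zero_of_mul hab
    have h3 : m = Finsupp.single a 1 + Finsupp.single b 1 := by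
      have : (X a * X b : MvPolynomial V ℝ)
          = monomial (Finsupp.single a 1 + Finsupp.single b 1) 1 := by
        rw [X, X, monomial_mul, one_mul]
      rw [this, coeff_monomial] at h2
      by_contra hne
      rw [if_neg (Ne.symm hne)] at h2
      exact h2 rfl
    by_contra hnf
    apply h1
    apply hT
    apply SR_M2
    have h4 : m.support = {a, b} := by
      rw [h3]
      ext c
      simp only [Finsupp.mem_support_iff, Finsupp.add_apply, Finsupp.single_apply,
        Finset.mem_insert, Finset.mem_singleton]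
      constructor
      · intro h
        by_contra hc
        push Not at hc
        apply h
        rw [if_neg (Ne.symm hc.1), if_neg (Ne.symm hc.2), add_zero]
      · rintro (rfl | rfl)
        · simp
        · simp
    rw [h4] at hnf
    have h5 := SR_prod hnf
    by_cases hab' : a = b
    · subst hab'
      simp only [Finset.insert_eq_of_mem, Finset.mem_singleton, Finset.prod_singleton] at h5
      exact Ideal.mul_mem_left _ _ h5
    · rwa [Finset.prod_pair hab'] at h5
  · have := hzero (fun _ => 1) (one_M2 p)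
    simpa using this
  · intro k
    exact hzero _ (coord_M2 p k)

/-- A function in equilibrium with all affine 2-stresses satisfies the quadratic relations. -/
theorem rel_of_stress {p : V → E d} (g : V → ℝ)
    (hg : ∀ u, IsAffineStress 2 p u → ∑ v, C (g v) * pderiv v u = 0) : Rel p g := by
  intro v
  by_contra hcon
  have hv : (X v * L g : MvPolynomial V ℝ) ∉ M2 p := by
    rintro ⟨t, w, h⟩
    apply hcon
    refine ⟨t, w, ?_⟩
    rw [L_dl, mul_comm (L g)]
    exact h
  obtain ⟨T, hT1, hT2⟩ := Submodule.exists_le_ker_of_notMem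
    (p := M2 p) (v := (X v * L g : MvPolynomial V ℝ)) hv
  have hT : ∀ f ∈ M2 p, T f = 0 := fun f hf => hT2 hf
  have h2 := hg _ (qf_stress T hT)
  rw [sum_pderiv_qf] at h2
  have h3 : (L (fun b => T (L g * X b)) : MvPolynomial V ℝ) = 0 := by
    rcases mul_eq_zero.mp h2 with h | h
    · exact absurd h two_ne_zero
    · exact h
  have h4 := congrFun (L_injective' h3) v
  simp only [Pi.zero_apply] at h4
  rw [mul_comm] at h4
  exact hT1 h4

theorem affine_map_of_stress (hd : 4 ≤ d) {p : V → E d} (hP : IsSimplicialPolytope p)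
    (hmiss : ∀ S, IsMissingFace p S → S.card + 1 ≤ d) {m : ℕ} (q : V → Fin m → ℝ)
    (hq : ∀ u, IsAffineStress 2 p u → ∀ k, ∑ v, C (q v k) * pderiv v u = 0) :
    ∃ A : E d →ᵃ[ℝ] (Fin m → ℝ), ∀ v, A (p v) = q v := by
  have h := fun k => affine_of_rel hd hP hmiss
    (rel_of_stress (fun v => q v k) (fun u hu => hq u hu k))
  choose l b h using h
  refine ⟨(LinearMap.pi l).toAffineMap + AffineMap.const ℝ (E d) b, fun v => ?_⟩
  funext k
  simp [h k v]

theorem affine_equiv_of_stress (hd : 4 ≤ d) {p q : V → E d} (hP : IsSimplicialPolytope p)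
    (hQ : IsSimplicialPolytope q) (hmiss : ∀ S, IsMissingFace p S → S.card + 1 ≤ d)
    (hq : ∀ u, IsAffineStress 2 p u → IsAffineStress 2 q u) :
    ∃ A : E d ≃ᵃ[ℝ] E d, ∀ v, A (p v) = q v := by
  obtain ⟨A, hA⟩ := affine_map_of_stress hd hP hmiss q (fun u hu k => (hq u hu).2.2.2 k)
  have himg : A '' Set.range p = Set.range q := by
    rw [← Set.range_comp]
    congr 1
    funext v
    exact hA v
  have hmap := AffineSubspace.map_span A (Set.range p)
  rw [himg, hP.spans, hQ.spans] at hmap
  have hsurj : Function.Surjective A := by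
    intro x
    have hx : x ∈ AffineSubspace.map A ⊤ := by
      rw [hmap]
      exact AffineSubspace.mem_top ℝ (E d) x
    obtain ⟨y, _, hy⟩ := (AffineSubspace.mem_map).mp hx
    exact ⟨y, hy⟩
  have hls : Function.Surjective A.linear := (AffineMap.linear_surjective_iff A).mpr hsurj
  have hli : Function.Injective A.linear := LinearMap.injective_iff_surjective.mpr hls
  have hinj : Function.Injective A := (AffineMap.linear_injective_iff A).mp hli
  exact ⟨AffineEquiv.ofBijective ⟨hinj, hsurj⟩, fun v => hA v⟩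

end Pool.Agent.K9h62.St
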