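import Pool.Agent.K9h62.St.Face

/-!
# Transfer of linear functions and multipliers to links
-/

namespace Pool.Agent.K9h62.St

open MvPolynomial Finset
open Pool.Agent.TH47.Lev (L L_apply dl L_dl)

variable {V : Type} [Fintype V] [DecidableEq V] {d : ℕ}

/-- back transfer -/
theorem lin_back {p : V → E (d + 1)} {a : V} (D : LinkData p a) {z : V → ℝ}
    {S : Finset (Lk p a)} (h : Lin D.q (D.r z) S) : Lin p z (up S) := by
  obtain ⟨l, hl⟩ := h
  refine ⟨l.comp D.π + z a • D.h, ?_⟩
  intro b hb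
  rw [mem_up] at hb
  rcases hb with rfl | ⟨c, hc, rfl⟩
  · rw [D.key3]
  · have h1 := hl c hc
    have h2 := D.key l c
    simp only [LinearMap.add_apply, LinearMap.coe_comp, Function.comp_apply, LinearMap.smul_apply,
      smul_eq_mul]
    rw [h2, ← h1]
    unfold LinkData.r
    have := (D.pos c).ne'
    field_simp
    ring

/-- forward transfer -/
theorem lin_fwd {p : V → E (d + 1)} {a : V} (D : LinkData p a) {z : V → ℝ}
    {S : Finset (Lk p a)} (h : Lin p z (up S)) : Lin D.q (D.r z) S := by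
  obtain ⟨l, hl⟩ := h
  have hza := hl a (mem_up.2 (Or.inl rfl))
  obtain ⟨f, hf⟩ := D.factor (l - z a • D.h) (by simp [hza, D.ha])
  refine ⟨f, ?_⟩
  intro b hb
  have h1 := hl b.1 (mem_up_val.2 hb)
  have h2 := D.key f b
  rw [hf] at h2
  simp only [LinearMap.sub_apply, LinearMap.smul_apply, smul_eq_mul] at h2
  unfold LinkData.r
  rw [h1, h2, inv_mul_cancel_left₀ (D.pos b).ne']

/-- the substitution homomorphism of the link -/
noncomputable def LinkData.phi {p : V → E (d + 1)} {a : V} (D : LinkData p a) :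
    MvPolynomial V ℝ →ₐ[ℝ] MvPolynomial (Lk p a) ℝ :=
  aeval (fun x => L (D.r (dl x)))

theorem r_sum {p : V → E (d + 1)} {a : V} (D : LinkData p a) (f : V → ℝ) :
    D.r f = ∑ x, f x • D.r (dl x) := by
  funext b
  rw [Finset.sum_apply]
  unfold LinkData.r
  simp only [Pi.smul_apply, smul_eq_mul]
  have e : ∀ u : V, ∑ x, f x * (dl x : V → ℝ) u = f u := by
    intro u
    rw [Finset.sum_eq_single u]
    · simp [dl]
    · intro b _ hb
      simp [dl, Ne.symm hb]
    · intro h; exact absurd (mem_univ u) h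
  have : ∑ x, f x * ((1 - D.h (p b.1))⁻¹ * ((dl x : V → ℝ) b.1 - (dl x : V → ℝ) a * D.h (p b.1)))
      = (1 - D.h (p b.1))⁻¹ * (∑ x, f x * (dl x : V → ℝ) b.1
        - (∑ x, f x * (dl x : V → ℝ) a) * D.h (p b.1)) := by
    rw [Finset.sum_mul, ← Finset.sum_sub_distrib, Finset.mul_sum]
    exact Finset.sum_congr rfl fun x _ => by ring
  rw [this, e, e]

theorem phi_L {p : V → E (d + 1)} {a : V} (D : LinkData p a) (f : V → ℝ) :
    D.phi (L f) = L (D.r f) := by
  rw [r_sum D f, map_sum]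
  rw [Pool.Agent.TH47.Lev.L_apply, map_sum]
  refine Finset.sum_congr rfl fun x _ => ?_
  rw [map_mul, LinkData.phi, aeval_X, map_smul, MvPolynomial.smul_eq_C_mul]
  congr 1
  exact MvPolynomial.algHom_C _ _

theorem r_dl_far {p : V → E (d + 1)} {a : V} (D : LinkData p a) {x : V} (hxa : x ≠ a)
    (hx : ¬ IsFace p {a, x}) : D.r (dl x) = 0 := by
  funext b
  unfold LinkData.r
  have h1 : b.1 ≠ x := by
    rintro rfl
    exact hx b.2.2
  simp [dl, h1, Ne.symm hxa]

theorem r_dl_near {p : V → E (d + 1)} {a : V} (D : LinkData p a) (x : Lk p a) :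
    D.r (dl x.1) = (1 - D.h (p x.1))⁻¹ • dl x := by
  funext b
  unfold LinkData.r
  by_cases hb : b = x
  · subst hb
    simp [dl, Ne.symm b.2.1]
  · have h1 : b.1 ≠ x.1 := fun h => hb (Subtype.ext h)
    simp [dl, h1, Ne.symm x.2.1, hb]

theorem r_one {p : V → E (d + 1)} {a : V} (D : LinkData p a) :
    D.r (fun _ => 1) = fun _ => 1 := by
  funext b
  unfold LinkData.r
  rw [one_mul, inv_mul_cancel₀ (D.pos b).ne']

theorem phi_SR (hd : 1 ≤ d) {p : V → E (d + 1)} (hP : IsSimplicialPolytope p) {a : V}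
    (D : LinkData p a) {f : MvPolynomial V ℝ} (hf : f ∈ SR p) : D.phi f ∈ SR D.q := by
  have : SR p ≤ Ideal.comap D.phi.toRingHom (SR D.q) := by
    unfold SR
    rw [Ideal.span_le]
    rintro m ⟨σ, hσ, rfl⟩
    simp only [SetLike.mem_coe, Ideal.mem_comap, AlgHom.toRingHom_eq_coe, RingHom.coe_coe, map_prod]
    by_cases hex : ∃ x ∈ σ, x ≠ a ∧ ¬ IsFace p {a, x}
    · obtain ⟨x, hx, hxa, hxf⟩ := hex
      have : D.phi (X x) = 0 := by
        rw [LinkData.phi, aeval_X, r_dl_far D hxa hxf, map_zero]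
      rw [Finset.prod_eq_zero hx this]
      exact Ideal.zero_mem _
    · push Not at hex
      -- the product over the link vertices divides
      have hnf : ¬ IsFace D.q (dn a σ) := by
        rw [link_face hd hP D]
        intro h
        apply hσ
        refine face_mono hP h ?_
        intro x hx
        rw [mem_up]
        by_cases hxa : x = a
        · exact Or.inl hxa
        · exact Or.inr ⟨⟨x, hxa, hex x hx hxa⟩, mem_dn.2 hx, rfl⟩
      have hmem : ∏ b ∈ (dn a σ : Finset (Lk p a)), (X b : MvPolynomial (Lk p a) ℝ) ∈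
          Ideal.span {m | ∃ σ : Finset (Lk p a), ¬ IsFace D.q σ ∧ m = ∏ a ∈ σ, X a} :=
        Ideal.subset_span ⟨_, hnf, rfl⟩
      have hsub : (dn a σ : Finset (Lk p a)).map ⟨Subtype.val, Subtype.val_injective⟩ ⊆ σ := by
        intro x hx
        rw [mem_map] at hx
        obtain ⟨b, hb, rfl⟩ := hx
        exact mem_dn.1 hb
      rw [← Finset.prod_sdiff hsub, Finset.prod_map]
      apply Ideal.mul_mem_left
      have e : ∏ x ∈ (dn a σ : Finset (Lk p a)),
          D.phi (X ((⟨Subtype.val, Subtype.val_injective⟩ : Lk p a ↪ V) x))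
          = (∏ x ∈ (dn a σ : Finset (Lk p a)), C ((1 - D.h (p x.1))⁻¹)) *
            ∏ x ∈ (dn a σ : Finset (Lk p a)), X x := by
        rw [← Finset.prod_mul_distrib]
        refine Finset.prod_congr rfl fun x _ => ?_
        rw [LinkData.phi, aeval_X]
        change L (D.r (dl x.1)) = _
        rw [r_dl_near, map_smul, L_dl, MvPolynomial.smul_eq_C_mul]
      rw [e]
      exact Ideal.mul_mem_left _ _ hmem
  exact this hf

theorem coord_fwd {p : V → E (d + 1)} {a : V} (D : LinkData p a) (j : Fin (d + 1)) :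
    ∃ c : Fin d → ℝ, D.r (fun x => p x j) = ∑ k, c k • (fun b => D.q b k) := by
  obtain ⟨f, hf⟩ := D.factor (LinearMap.proj j - (p a j) • D.h) (by simp [D.ha])
  refine ⟨fun k => f (Pi.single k 1), ?_⟩
  funext b
  have h2 := D.key f b
  rw [hf] at h2
  simp only [LinearMap.sub_apply, LinearMap.smul_apply, smul_eq_mul, LinearMap.proj_apply] at h2
  unfold LinkData.r
  rw [h2, inv_mul_cancel_left₀ (D.pos b).ne', LinearMap.pi_apply_eq_sum_univ f (D.q b),
    Finset.sum_apply]
  refine Finset.sum_congr rfl fun k _ => ?_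
  rw [Pi.smul_apply, smul_eq_mul, smul_eq_mul, mul_comm]
  congr 2
  funext i
  simp [Pi.single_apply, eq_comm]

theorem mult_fwd (hd : 1 ≤ d) {p : V → E (d + 1)} (hP : IsSimplicialPolytope p) {a : V}
    (D : LinkData p a) {δ y z : V → ℝ} (h : Mult p δ y z) : Mult D.q (D.r δ) (D.r y) (D.r z) := by
  obtain ⟨w, hw⟩ := h
  have h1 := phi_SR hd hP D hw
  choose c hc using fun j => coord_fwd D j
  refine ⟨fun k => ∑ j, c j k • D.r (w j), ?_⟩
  have e : ∑ k, L (fun b => D.q b k) * L (∑ j, c j k • D.r (w j))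
      = ∑ j, D.phi (L (fun x => p x j)) * D.phi (L (w j)) := by
    simp only [phi_L, hc, map_sum, map_smul, Finset.mul_sum, Finset.sum_mul, smul_mul_assoc,
      mul_smul_comm]
    rw [Finset.sum_comm]
  rw [e]
  simp only [map_sub, map_mul, map_sum, phi_L, r_one] at h1
  simpa only [phi_L] using h1

theorem r_smul {p : V → E (d + 1)} {a : V} (D : LinkData p a) (c : ℝ) (f : V → ℝ) :
    D.r (c • f) = c • D.r f := by
  funext b
  simp only [LinkData.r, Pi.smul_apply, smul_eq_mul]
  ring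

theorem mult_smul {p : V → E d} {δ y z : V → ℝ} (c : ℝ) (h : Mult p δ y z) :
    Mult p (c • δ) y (c • z) := by
  obtain ⟨w, hw⟩ := h
  refine ⟨fun j => c • w j, ?_⟩
  have e : L y * L (c • δ) - L (fun _ => 1) * L (c • z) - ∑ j, L (fun a => p a j) * L (c • w j)
      = C c * (L y * L δ - L (fun _ => 1) * L z - ∑ j, L (fun a => p a j) * L (w j)) := by
    simp only [map_smul, MvPolynomial.smul_eq_C_mul, mul_sub, Finset.mul_sum]
    congr 1
    · ring
    · exact Finset.sum_congr rfl fun j _ => by ring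
  rw [e]
  exact Ideal.mul_mem_left _ _ hw

theorem rel_fwd (hd : 1 ≤ d) {p : V → E (d + 1)} (hP : IsSimplicialPolytope p) {a : V}
    (D : LinkData p a) {y : V → ℝ} (h : Rel p y) : Rel D.q (D.r y) := by
  intro u
  obtain ⟨z, hz⟩ := h u.1
  have h1 := mult_fwd hd hP D hz
  rw [r_dl_near] at h1
  refine ⟨(1 - D.h (p u.1)) • D.r z, ?_⟩
  have h2 := mult_smul (1 - D.h (p u.1)) h1
  rwa [smul_smul, mul_inv_cancel₀ (D.pos u).ne', one_smul] at h2

end Pool.Agent.K9h62.St
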